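import Mathlib
import Pool.Agent.Lib.MP_c82530_nt.Support

set_option autoImplicit false

namespace Pool.Agent.Lib.MP_c82530_nt.AA

open Set Pool.Agent.Lib.MP_c82530_nt

lemma sub_mem_cl {s : Set ℂ} {z w : ℂ} (h : z ∈ AM.closure s) (h' : w ∈ AM.closure s) :
    z - w ∈ AM.closure s := by
  rw [mem_cl] at h h' ⊢
  exact h.sub h'

lemma add_mem_cl' {s : Set ℂ} {z w : ℂ} (h : z ∈ AM.closure s) (h' : w ∈ AM.closure s) :
    z + w ∈ AM.closure s := by
  rw [mem_cl] at h h' ⊢
  exact h.add h'

lemma cl_mono {W1 W2 : Submodule ℚ ℂ} (h : W1 ≤ W2) {z : ℂ}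
    (hz : z ∈ AM.closure (expSet W1)) : z ∈ AM.closure (expSet W2) :=
  AM.closure_subset_closure (image_mono h) hz

/-- **Relative directness for subspaces.** -/
theorem direct_rel {ι : Type*} (E : Submodule ℚ ℂ) : ∀ (n : ℕ) (s : Finset ι), s.card = n →
    ∀ (N : ℕ) (W : ι → Submodule ℚ ℂ), (∑ i ∈ s, Module.finrank ℚ (W i) = N) →
    (∀ i ∈ s, FiniteDimensional ℚ (W i)) →
    (∀ i ∈ s, ∀ w ∈ W i, IsAlgebraic ℚ w) →
    (∀ i ∈ s, E ≤ W i) →
    (∀ i ∈ s, ∀ j ∈ s, i ≠ j → W i ⊓ W j ≤ E) →
    ∀ y : ι → ℂ, (∀ i ∈ s, y i ∈ AM.closure (expSet (W i))) →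
      (∑ i ∈ s, y i) ∈ AM.closure (expSet E) → ∀ i ∈ s, y i ∈ AM.closure (expSet E) := by
  classical
  intro n
  induction n with
  | zero =>
    intro s hs N W _ _ _ _ _ y _ _ i hi
    rw [Finset.card_eq_zero] at hs
    rw [hs] at hi
    exact absurd hi (Finset.notMem_empty i)
  | succ n ihn =>
    intro s hs N
    induction N using Nat.strong_induction_on with
    | _ N ihN =>
    intro W hN hfd hW hE hdis y hy hsum
    by_cases hall : ∀ i ∈ s, W i ≤ E
    · intro i hi
      exact cl_mono (hall i hi) (hy i hi)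
    push Not at hall
    obtain ⟨j, hj, hWj⟩ := hall
    by_cases hsj : ∃ m ∈ s, m ≠ j
    swap
    · push Not at hsj
      have hs1 : s = {j} := by
        ext x; simp only [Finset.mem_singleton]
        exact ⟨fun hx => hsj x hx, fun hx => hx ▸ hj⟩
      rw [hs1, Finset.sum_singleton] at hsum
      intro i hi
      rw [hsj i hi]; exact hsum
    obtain ⟨m, hm, hmj⟩ := hsj
    obtain ⟨b, hbW, hbE⟩ := SetLike.not_le_iff_exists.mp hWj
    have hbalg := hW j hj b hbW
    have hbm : b ∉ W m := by
      intro hb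
      exact hbE (hdis m hm j hj hmj ⟨hb, hbW⟩)
    obtain ⟨H, hH, hmH, hbH, hsup⟩ := exists_hyperplane' (hW m hm) hbalg hbm
    obtain ⟨F, σ, hF, hexp, hτF, hσ⟩ := exists_scaling b H hH hbalg hbH
    have hQF : ∀ z, IsAlgebraic ℚ z → z ∈ F := fun z hz =>
      hF z (hz.extendScalars (algebraMap ℚ F).injective)
    have hσF : ∀ z ∈ F, σ z = z := fun z hz => σ.commutes (⟨z, hz⟩ : F)
    have hclF : ∀ (T : Submodule ℚ ℂ), T ≤ H → ∀ z ∈ AM.closure (expSet T), z ∈ F := by
      intro T hT z hz
      apply hF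
      apply isAlgebraic_of_mem_cl F _ hz
      rintro _ ⟨h, hh, rfl⟩
      exact hexp _ (hT hh)
    have hymF : y m ∈ F := hclF _ hmH _ (hy m hm)
    have hEH : E ≤ H := (hE m hm).trans hmH
    have hz : ∀ i ∈ s, σ (y i) - y i ∈ AM.closure (expSet (W i)) := by
      intro i hi
      have hyi := hy i hi
      have h1 := map_mem_cl (σ.restrictScalars ℚ) hyi
      have h2 : σ (y i) ∈ AM.closure (expSet (W i)) := by
        have h3 : (σ.restrictScalars ℚ) '' (expSet (W i)) ⊆ AM.closure (expSet (W i)) := by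
          rintro _ ⟨_, ⟨w, hw, rfl⟩, rfl⟩
          obtain ⟨c, hc, hσc⟩ := sigma_exp σ hσ hexp (hsup _ (hW i hi w hw))
          change σ (Complex.exp w) ∈ _
          rw [hσc]
          exact mul_mem_cl (alg_mem_cl _ hc) (AM.mem_closure_of_mem' ⟨w, hw, rfl⟩ (mem_univ _))
        have h4 := AM.closure_subset_closure h3 h1
        rwa [Matroid.closure_closure] at h4
      exact sub_mem_cl h2 hyi
    have hsumz : ∑ i ∈ s.erase m, (σ (y i) - y i) = 0 := by
      rw [Finset.sum_sub_distrib, ← map_sum]
      have h1 : ∑ i ∈ s.erase m, y i ∈ F := by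
        have h2 : ∑ i ∈ s.erase m, y i = (∑ i ∈ s, y i) - y m := by
          rw [← Finset.add_sum_erase s _ hm]; ring
        rw [h2]
        exact sub_mem (hclF _ hEH _ hsum) hymF
      rw [hσF _ h1, sub_self]
    have hzE := ihn (s.erase m) (by rw [Finset.card_erase_of_mem hm, hs]; rfl) _ W rfl
      (fun i hi => hfd i (Finset.mem_of_mem_erase hi))
      (fun i hi => hW i (Finset.mem_of_mem_erase hi))
      (fun i hi => hE i (Finset.mem_of_mem_erase hi))
      (fun i hi i' hi' => hdis i (Finset.mem_of_mem_erase hi) i' (Finset.mem_of_mem_erase hi'))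
      (fun i => σ (y i) - y i) (fun i hi => hz i (Finset.mem_of_mem_erase hi))
      (by rw [hsumz]; exact alg_mem_cl _ isAlgebraic_zero) j (Finset.mem_erase.mpr ⟨hmj.symm, hj⟩)
    -- `y j ∈ F`
    have hyjF : y j ∈ F := by
      apply hF
      have h1 : IsAlgebraic (Algebra.adjoin F {Complex.exp b}) (y j) := by
        apply isAlgebraic_adjoin_F' F _ (hy j hj)
        rintro _ ⟨w, hw, rfl⟩
        obtain ⟨h, hh, x, hx, hx2⟩ := Submodule.mem_sup.mp (hsup w (hW j hj w hw))
        obtain ⟨q, rfl⟩ := Submodule.mem_span_singleton.mp hx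
        rw [← hx2, Complex.exp_add]
        apply mul_mem_cl
        · exact AM.mem_closure_of_mem' (Or.inl (hexp h hh)) (mem_univ _)
        · exact AM.closure_subset_closure subset_union_right (exp_smul_mem_cl q b)
      exact eigen σ (τ := Complex.exp b) (c := 2) (κ := (⟨_, hclF _ hEH _ hzE⟩ : F))
        (two_pow_inj F) (Complex.exp_ne_zero _) (by rw [hσ]; rfl) (by
          change σ (y j) = y j + (σ (y j) - y j)
          ring) h1
    -- `y j` is in the closure of the smaller space `W j ⊓ H`
    have hyjH : y j ∈ AM.closure (expSet (W j ⊓ H)) := by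
      by_contra hcon
      have h1 : y j ∈ AM.closure (insert (Complex.exp b) (expSet (W j ⊓ H))) := by
        have h3 : expSet (W j) ⊆ AM.closure (insert (Complex.exp b) (expSet (W j ⊓ H))) := by
          rintro _ ⟨w, hw, rfl⟩
          obtain ⟨h, hh, x, hx, hx2⟩ := Submodule.mem_sup.mp (hsup w (hW j hj w hw))
          obtain ⟨q, rfl⟩ := Submodule.mem_span_singleton.mp hx
          have hhW : h ∈ W j := by
            have h4 := (W j).sub_mem hw ((W j).smul_mem q hbW)
            rw [← hx2, add_sub_cancel_right] at h4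
            exact h4
          rw [← hx2, Complex.exp_add]
          apply mul_mem_cl
          · exact AM.mem_closure_of_mem' (Or.inr ⟨h, ⟨hhW, hh⟩, rfl⟩) (mem_univ _)
          · exact AM.closure_subset_closure (singleton_subset_iff.mpr (mem_insert _ _))
              (exp_smul_mem_cl q b)
        have h4 := AM.closure_subset_closure h3 (hy j hj)
        rwa [Matroid.closure_closure] at h4
      have h2 := (Matroid.closure_exchange ⟨h1, hcon⟩).1
      apply hτF
      apply hF
      apply isAlgebraic_of_mem_cl F _ h2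
      rintro z (rfl | ⟨w, hw, rfl⟩)
      · exact hyjF
      · exact hexp _ hw.2
    -- apply the induction hypothesis
    set W' : ι → Submodule ℚ ℂ := fun i => if i = j then W j ⊓ H else W i with hW'
    have hW'le : ∀ i, W' i ≤ W i := by
      intro i
      rw [hW']
      by_cases h : i = j
      · simp only [h, if_true]; exact inf_le_left
      · simp only [h, if_false]; exact le_rfl
    have hlt : ∑ i ∈ s, Module.finrank ℚ (W' i) < N := by
      rw [← hN]
      apply Finset.sum_lt_sum
      · intro i hi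
        have := hfd i hi
        exact Submodule.finrank_mono (hW'le i)
      · refine ⟨j, hj, ?_⟩
        have := hfd j hj
        apply Submodule.finrank_lt_finrank_of_lt
        refine lt_of_le_of_ne (hW'le j) ?_
        intro h
        apply hbH
        have h1 : b ∈ W' j := by rw [h]; exact hbW
        have h2 : W' j = W j ⊓ H := by rw [hW']; simp
        rw [h2] at h1
        exact h1.2
    refine ihN _ hlt W' rfl ?_ ?_ ?_ ?_ y ?_ hsum
    · intro i hi
      have := hfd i hi
      exact Submodule.finiteDimensional_of_le (hW'le i)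
    · intro i hi w hw
      exact hW i hi w (hW'le i hw)
    · intro i hi
      by_cases h : i = j
      · have h2 : W' i = W j ⊓ H := by rw [hW']; simp [h]
        rw [h2]
        exact le_inf (hE j hj) hEH
      · have h2 : W' i = W i := by rw [hW']; simp [h]
        rw [h2]
        exact hE i hi
    · intro i hi i' hi' hne
      exact (inf_le_inf (hW'le i) (hW'le i')).trans (hdis i hi i' hi' hne)
    · intro i hi
      by_cases h : i = j
      · have h2 : W' i = W j ⊓ H := by rw [hW']; simp [h]
        rw [h2, h]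
        exact hyjH
      · have h2 : W' i = W i := by rw [hW']; simp [h]
        rw [h2]
        exact hy i hi

/-- **RAL.** -/
theorem ral {A B T : Submodule ℚ ℂ} [FiniteDimensional ℚ A] [FiniteDimensional ℚ B]
    [FiniteDimensional ℚ T] (hA : ∀ w ∈ A, IsAlgebraic ℚ w) (hB : ∀ w ∈ B, IsAlgebraic ℚ w)
    (hT : ∀ w ∈ T, IsAlgebraic ℚ w) (hABT : A ⊓ B ≤ T) {y y' : ℂ}
    (hy : y ∈ AM.closure (expSet A)) (hy' : y' ∈ AM.closure (expSet B))
    (hz : y - y' ∈ AM.closure (expSet T)) : y ∈ AM.closure (expSet T) := by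
  set E : Submodule ℚ ℂ := (T ⊓ A) ⊔ (T ⊓ B) with hE
  have hET : E ≤ T := sup_le inf_le_left inf_le_left
  have hEalg : ∀ w ∈ E, IsAlgebraic ℚ w := fun w hw => hT w (hET hw)
  have hfdE : FiniteDimensional ℚ E := Submodule.finiteDimensional_of_le hET
  have hsup : ∀ X : Submodule ℚ ℂ, (∀ w ∈ X, IsAlgebraic ℚ w) → ∀ w ∈ X ⊔ E, IsAlgebraic ℚ w := by
    intro X hX w hw
    obtain ⟨a, ha, e, he, rfl⟩ := Submodule.mem_sup.mp hw
    exact (hX a ha).add (hEalg e he)
  have h1 := direct_rel (ι := Fin 3) E 3 Finset.univ (by simp) _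
    ![A ⊔ E, B ⊔ E, T] rfl ?_ ?_ ?_ ?_ ![y, -y', -(y - y')] ?_ ?_ 0 (Finset.mem_univ _)
  · exact cl_mono hET h1
  · intro i _
    fin_cases i
    · exact Submodule.finiteDimensional_sup A E
    · exact Submodule.finiteDimensional_sup B E
    · assumption
  · intro i _
    fin_cases i
    · exact hsup A hA
    · exact hsup B hB
    · exact hT
  · intro i _
    fin_cases i
    · exact le_sup_right
    · exact le_sup_right
    · exact hET
  · have key1 : (A ⊔ E) ⊓ (B ⊔ E) ≤ E := by
      rintro x ⟨hx1, hx2⟩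
      obtain ⟨a, ha, e, he, hae⟩ := Submodule.mem_sup.mp hx1
      obtain ⟨b, hb, e', he', hbe⟩ := Submodule.mem_sup.mp hx2
      -- a - b = e' - e ∈ E
      have h3 : a - b ∈ E := by
        have : a - b = e' - e := by
          have h4 : a + e = b + e' := hae.trans hbe.symm
          linear_combination h4
        rw [this]; exact E.sub_mem he' he
      obtain ⟨u, hu, v, hv, huv⟩ := Submodule.mem_sup.mp h3
      -- a - u = b + v
      have h5 : a - u = b + v := by linear_combination -huv
      have h6 : a - u ∈ A := A.sub_mem ha hu.2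
      have h7 : a - u ∈ B := by rw [h5]; exact B.add_mem hb hv.2
      have h8 : a - u ∈ T := hABT ⟨h6, h7⟩
      have h9 : a ∈ T := by
        have := T.add_mem h8 hu.1
        rwa [sub_add_cancel] at this
      rw [← hae]
      exact E.add_mem (le_sup_left (a := T ⊓ A) (b := T ⊓ B) ⟨h9, ha⟩) he
    have key2 : (A ⊔ E) ⊓ T ≤ E := by
      rintro x ⟨hx1, hx2⟩
      obtain ⟨a, ha, e, he, hae⟩ := Submodule.mem_sup.mp hx1
      have h9 : a ∈ T := by
        have : a = x - e := by rw [← hae]; ring
        rw [this]; exact T.sub_mem hx2 (hET he)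
      rw [← hae]
      exact E.add_mem (le_sup_left (a := T ⊓ A) (b := T ⊓ B) ⟨h9, ha⟩) he
    have key3 : (B ⊔ E) ⊓ T ≤ E := by
      rintro x ⟨hx1, hx2⟩
      obtain ⟨a, ha, e, he, hae⟩ := Submodule.mem_sup.mp hx1
      have h9 : a ∈ T := by
        have : a = x - e := by rw [← hae]; ring
        rw [this]; exact T.sub_mem hx2 (hET he)
      rw [← hae]
      exact E.add_mem (le_sup_right (a := T ⊓ A) (b := T ⊓ B) ⟨h9, ha⟩) he
    intro i _ j _ hij
    fin_cases i <;> fin_cases j
    · exact absurd rfl hij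
    · exact key1
    · exact key2
    · rw [inf_comm]; exact key1
    · exact absurd rfl hij
    · exact key3
    · rw [inf_comm]; exact key2
    · rw [inf_comm]; exact key3
    · exact absurd rfl hij
  · intro i _
    fin_cases i
    · exact cl_mono le_sup_left hy
    · exact cl_mono le_sup_left (neg_mem_cl hy')
    · exact neg_mem_cl hz
  · have : (∑ i : Fin 3, (![y, -y', -(y - y')] : Fin 3 → ℂ) i) = 0 := by
      simp [Fin.sum_univ_three]; ring
    rw [this]
    exact alg_mem_cl _ isAlgebraic_zero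

end Pool.Agent.Lib.MP_c82530_nt.AA
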