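import Mathlib

set_option autoImplicit false

namespace Pool.Agent.Lib.MP_c82530_nt.AA

open scoped BigOperators

/-- the product of `(1 - 1/p)⁻¹` over `P` -/
noncomputable def ZP (P : Finset ℕ) : ℝ := ∏ p ∈ P, (1 - (p : ℝ)⁻¹)⁻¹

/-- the set `A` has (logarithmic) measure at most `ε` among the integers composed of primes
in `P` -/
def Sm (P : Finset ℕ) (A : Set ℕ) (ε : ℝ) : Prop :=
  ∀ Y : Finset ℕ, (∀ b ∈ Y, b ∈ Nat.factoredNumbers P) → (∀ b ∈ Y, b ∈ A) →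
    ∑ b ∈ Y, (b : ℝ)⁻¹ ≤ ε * ZP P

/-- piece LO (integer valued Littlewood-Offord for logarithmic weights) -/
def S_lo : Prop := ∃ C : ℝ, 0 < C ∧ ∀ (P : Finset ℕ), (∀ p ∈ P, p.Prime) →
  ∀ (a : ℕ → ℤ) (k : ℤ) (Y : Finset ℕ), (∀ b ∈ Y, b ∈ Nat.factoredNumbers P) →
  (∀ b ∈ Y, ∑ p ∈ P, (b.factorization p : ℤ) * a p = k) →
  0 < ∑ p ∈ P with a p ≠ 0, (p : ℝ)⁻¹ →
  ∑ b ∈ Y, (b : ℝ)⁻¹ ≤ C / √(∑ p ∈ P with a p ≠ 0, (p : ℝ)⁻¹) * ZP P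

/-- piece MT (Mertens upper bound) -/
def S_mt : Prop := ∃ C : ℝ, 0 < C ∧ ∀ x : ℕ, 2 ≤ x →
  ZP (Nat.primesBelow (x + 1)) ≤ C * Real.log x

/-- piece ZS (finite sums are at most the product) -/
def S_zs : Prop := ∀ (P : Finset ℕ), (∀ p ∈ P, p.Prime) → ∀ Y : Finset ℕ,
  (∀ b ∈ Y, b ∈ Nat.factoredNumbers P) → ∑ b ∈ Y, (b : ℝ)⁻¹ ≤ ZP P

/-- piece CS (four corners) -/
def S_cs : Prop := ∀ (X Y : Finset ℕ) (w v : ℕ → ℝ), (∀ s ∈ X, 0 ≤ w s) → (∀ t ∈ Y, 0 ≤ v t) →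
  ∀ (f : ℕ → ℕ → Prop) [∀ s t, Decidable (f s t)],
  (∑ s ∈ X, ∑ t ∈ Y, if f s t then w s * v t else 0) ^ 4 ≤
    (∑ s ∈ X, w s) ^ 2 * (∑ t ∈ Y, v t) ^ 2 *
      ∑ s ∈ X, ∑ s' ∈ X, ∑ t ∈ Y, ∑ t' ∈ Y,
        if f s t ∧ f s' t ∧ f s t' ∧ f s' t' then w s * w s' * v t * v t' else 0

/-- piece SP (splitting of integers): a finite set of integers composed of primes in
`P₁ ∪ P₂` is covered by products -/
def S_sp : Prop := ∀ (P₁ P₂ : Finset ℕ), (∀ p ∈ P₁, p.Prime) → (∀ p ∈ P₂, p.Prime) →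
  Disjoint P₁ P₂ → ∀ b ∈ Nat.factoredNumbers (P₁ ∪ P₂), ∃ s ∈ Nat.factoredNumbers P₁,
    ∃ t ∈ Nat.factoredNumbers P₂, b = s * t

/-- piece SI: products determine the factors -/
def S_si : Prop := ∀ (P₁ P₂ : Finset ℕ), (∀ p ∈ P₁, p.Prime) → (∀ p ∈ P₂, p.Prime) →
  Disjoint P₁ P₂ → ∀ s ∈ Nat.factoredNumbers P₁, ∀ t ∈ Nat.factoredNumbers P₂,
    ∀ s' ∈ Nat.factoredNumbers P₁, ∀ t' ∈ Nat.factoredNumbers P₂, s * t = s' * t' →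
      s = s' ∧ t = t'

end Pool.Agent.Lib.MP_c82530_nt.AA
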