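import Mathlib
import Pool.Agent.Lib.MP_c82530_nt.AA.Rel
import Pool.Agent.Lib.MP_c82530_nt.AA.Stm

set_option autoImplicit false

namespace Pool.Agent.Lib.MP_c82530_nt.AA

open Set Pool.Agent.Lib.MP_c82530_nt Module

/-- finite dimensional spaces of algebraic numbers -/
def Good (W : Submodule ℚ ℂ) : Prop := FiniteDimensional ℚ W ∧ ∀ w ∈ W, IsAlgebraic ℚ w

/-- membership in the closure of the exponentials of `W` -/
def InK (W : Submodule ℚ ℂ) (y : ℂ) : Prop := y ∈ AM.closure (expSet W)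

lemma Good.bot : Good ⊥ := by
  refine ⟨inferInstance, ?_⟩
  intro w hw
  rw [Submodule.mem_bot] at hw
  rw [hw]; exact isAlgebraic_zero

lemma Good.sup {A B : Submodule ℚ ℂ} (hA : Good A) (hB : Good B) : Good (A ⊔ B) := by
  have h1 := hA.1
  have h2 := hB.1
  refine ⟨Submodule.finiteDimensional_sup A B, ?_⟩
  intro w hw
  obtain ⟨a, ha, b, hb, rfl⟩ := Submodule.mem_sup.mp hw
  exact (hA.2 a ha).add (hB.2 b hb)

lemma Good.of_le {A B : Submodule ℚ ℂ} (hB : Good B) (h : A ≤ B) : Good A := by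
  have h2 := hB.1
  exact ⟨Submodule.finiteDimensional_of_le h, fun w hw => hB.2 w (h hw)⟩

lemma Good.inf {A B : Submodule ℚ ℂ} (hA : Good A) : Good (A ⊓ B) := hA.of_le inf_le_left

lemma InK.mono {A B : Submodule ℚ ℂ} {y : ℂ} (h : InK A y) (hAB : A ≤ B) : InK B y :=
  cl_mono hAB h

lemma InK.inf {A B : Submodule ℚ ℂ} (hA : Good A) (hB : Good B) {y : ℂ} (h1 : InK A y)
    (h2 : InK B y) : InK (A ⊓ B) y := cl_inf hA.2 hB.2 h1 h2

lemma InK.sub {A : Submodule ℚ ℂ} {y z : ℂ} (h1 : InK A y) (h2 : InK A z) : InK A (y - z) :=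
  sub_mem_cl h1 h2

lemma InK.add {A : Submodule ℚ ℂ} {y z : ℂ} (h1 : InK A y) (h2 : InK A z) : InK A (y + z) :=
  add_mem_cl' h1 h2

/-- the least space over `W` -/
theorem exists_least {W : Submodule ℚ ℂ} {y : ℂ}
    (h : ∃ S, Good S ∧ W ≤ S ∧ InK S y) :
    ∃ T, Good T ∧ W ≤ T ∧ InK T y ∧ ∀ S, Good S → W ≤ S → InK S y → T ≤ S := by
  classical
  have hex : ∃ n : ℕ, ∃ S, (Good S ∧ W ≤ S ∧ InK S y) ∧ finrank ℚ S = n := by
    obtain ⟨S, hS⟩ := h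
    exact ⟨_, S, hS, rfl⟩
  obtain ⟨T, ⟨hT1, hT2, hT3⟩, hT4⟩ := Nat.find_spec hex
  refine ⟨T, hT1, hT2, hT3, fun S hS1 hS2 hS3 => ?_⟩
  have h1 : Nat.find hex ≤ finrank ℚ (T ⊓ S : Submodule ℚ ℂ) :=
    Nat.find_min' hex ⟨T ⊓ S, ⟨hT1.inf, le_inf hT2 hS2, InK.inf hT1 hS1 hT3 hS3⟩, rfl⟩
  rw [← hT4] at h1
  have := hT1.1
  have h3 : (T ⊓ S : Submodule ℚ ℂ) = T :=
    Submodule.eq_of_le_of_finrank_le inf_le_left h1
  rw [← h3]
  exact inf_le_right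

/-- the bad set -/
def Bad (r : ℕ) (W : Submodule ℚ ℂ) (g : ℂ) : Set ℕ :=
  {b | ∃ S, Good S ∧ W ≤ S ∧ finrank ℚ S ≤ finrank ℚ W + r ∧ InK S (g + (Real.log b : ℂ))}

/-- **the exchange step.** -/
theorem exchange {W T1 T4 V : Submodule ℚ ℂ} {y1 y4 : ℂ} {r : ℕ}
    (hT1 : Good T1) (hT4 : Good T4) (hV : Good V) (hW1 : W ≤ T1) (hW4 : W ≤ T4)
    (hy1 : InK T1 y1) (hy4 : InK T4 y4) (hr1 : finrank ℚ T1 ≤ finrank ℚ W + (r + 1))
    (hr4 : finrank ℚ T4 ≤ finrank ℚ W + (r + 1)) (hne : T1 ≠ T4)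
    (hz : InK V (y1 - y4)) :
    ∃ S, Good S ∧ W ⊔ V ≤ S ∧ finrank ℚ S ≤ finrank ℚ (W ⊔ V : Submodule ℚ ℂ) + r ∧ InK S y1 := by
  have f1 := hT1.1
  have f4 := hT4.1
  have fV := hV.1
  set R : Submodule ℚ ℂ := T1 ⊓ T4 with hR
  have hRg : Good R := hT1.inf
  have fR := hRg.1
  have hWR : W ≤ R := le_inf hW1 hW4
  have fW : FiniteDimensional ℚ W := Submodule.finiteDimensional_of_le hWR
  have hS : Good (R ⊔ V) := hRg.sup hV
  have fS := hS.1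
  refine ⟨R ⊔ V, hS, sup_le_sup_right hWR V, ?_, ?_⟩
  · -- dimensions
    have hWVfd : FiniteDimensional ℚ (W ⊔ V : Submodule ℚ ℂ) :=
      Submodule.finiteDimensional_sup W V
    have e1 : (R ⊔ (W ⊔ V) : Submodule ℚ ℂ) = R ⊔ V := by
      rw [← sup_assoc, sup_eq_left.mpr hWR]
    have e2 := Submodule.finrank_sup_add_finrank_inf_eq R (W ⊔ V)
    rw [e1] at e2
    have e3 : finrank ℚ W ≤ finrank ℚ (R ⊓ (W ⊔ V) : Submodule ℚ ℂ) :=
      Submodule.finrank_mono (le_inf hWR le_sup_left)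
    have e4 : finrank ℚ R ≤ finrank ℚ W + r := by
      by_contra hcon
      push Not at hcon
      have h1 : finrank ℚ T1 ≤ finrank ℚ R := by omega
      have h4 : finrank ℚ T4 ≤ finrank ℚ R := by omega
      have g1 : R = T1 := Submodule.eq_of_le_of_finrank_le inf_le_left h1
      have g4 : R = T4 := Submodule.eq_of_le_of_finrank_le inf_le_right h4
      exact hne (g1.symm.trans g4)
    omega
  · exact ral hT1.2 hT4.2 hS.2 (le_sup_left : R ≤ R ⊔ V) hy1 hy4 (InK.mono hz le_sup_right)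

end Pool.Agent.Lib.MP_c82530_nt.AA
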