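import Mathlib
import Pool.Agent.Lib.MP_c82530_nt.AA.Stm

set_option autoImplicit false

namespace Pool.Agent.Lib.MP_c82530_nt.AA

open scoped BigOperators

lemma ZP_pos {P : Finset ℕ} (hP : ∀ p ∈ P, p.Prime) : 0 < ZP P := by
  apply Finset.prod_pos
  intro p hp
  have h2 : (2 : ℝ) ≤ p := by exact_mod_cast (hP p hp).two_le
  have h3 : (p : ℝ)⁻¹ ≤ 2⁻¹ := inv_anti₀ (by norm_num) h2
  have : 0 < 1 - (p : ℝ)⁻¹ := by linarith [h3, (by norm_num : (2 : ℝ)⁻¹ < 1)]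
  positivity

lemma ZP_union {P1 P2 : Finset ℕ} (hd : Disjoint P1 P2) : ZP (P1 ∪ P2) = ZP P1 * ZP P2 :=
  Finset.prod_union hd

lemma Sm.mono {P : Finset ℕ} (hP : ∀ p ∈ P, p.Prime) {A B : Set ℕ} {ε δ : ℝ} (h : Sm P B ε)
    (hAB : A ⊆ B) (hεδ : ε ≤ δ) : Sm P A δ := by
  intro Y hY hYA
  exact (h Y hY (fun b hb => hAB (hYA b hb))).trans
    (mul_le_mul_of_nonneg_right hεδ (ZP_pos hP).le)

/-- monotonicity: enlarging the set of primes -/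
theorem Sm.union (hzs : S_zs) (hsp : S_sp) {P1 P2 : Finset ℕ}
    (h1 : ∀ p ∈ P1, p.Prime) (h2 : ∀ p ∈ P2, p.Prime) (hd : Disjoint P1 P2)
    {A : Set ℕ} {ε : ℝ} (hε : 0 ≤ ε)
    (h : ∀ t ∈ Nat.factoredNumbers P2, Sm P1 {s | s * t ∈ A} ε) :
    Sm (P1 ∪ P2) A ε := by
  classical
  intro Y hY hYA
  choose! s hs t ht hst using hsp P1 P2 h1 h2 hd
  have hsum : ∑ b ∈ Y, (b : ℝ)⁻¹ = ∑ u ∈ Y.image t, ∑ b ∈ Y with t b = u, (b : ℝ)⁻¹ :=
    (Finset.sum_fiberwise_of_maps_to (fun b hb => Finset.mem_image_of_mem t hb) _).symm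
  rw [hsum, ZP_union hd]
  have hstep : ∀ u ∈ Y.image t, ∑ b ∈ Y with t b = u, (b : ℝ)⁻¹ ≤ (u : ℝ)⁻¹ * (ε * ZP P1) := by
    intro u hu
    obtain ⟨b0, hb0, rfl⟩ := Finset.mem_image.mp hu
    have hinj : Set.InjOn s (Y.filter fun b => t b = t b0 : Finset ℕ) := by
      intro x hx y hy hxy
      simp only [Finset.coe_filter, Set.mem_setOf_eq] at hx hy
      rw [hst x (hY x hx.1), hst y (hY y hy.1), hxy, hx.2, hy.2]
    have h3 : ∑ b ∈ Y with t b = t b0, (b : ℝ)⁻¹ =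
        ((t b0 : ℕ) : ℝ)⁻¹ * ∑ a ∈ (Y.filter fun b => t b = t b0).image s, (a : ℝ)⁻¹ := by
      rw [Finset.sum_image hinj, Finset.mul_sum]
      apply Finset.sum_congr rfl
      intro b hb
      rw [Finset.mem_filter] at hb
      have := hst b (hY b hb.1)
      rw [hb.2] at this
      conv_lhs => rw [this]
      push_cast
      rw [mul_inv, mul_comm]
    rw [h3]
    apply mul_le_mul_of_nonneg_left _ (by positivity)
    apply h (t b0) (ht _ (hY _ hb0))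
    · intro a ha
      obtain ⟨b, hb, rfl⟩ := Finset.mem_image.mp ha
      exact hs b (hY b (Finset.mem_filter.mp hb).1)
    · intro a ha
      obtain ⟨b, hb, rfl⟩ := Finset.mem_image.mp ha
      rw [Finset.mem_filter] at hb
      change s b * t b0 ∈ A
      rw [← hb.2, ← hst b (hY b hb.1)]
      exact hYA b hb.1
  calc _ ≤ ∑ u ∈ Y.image t, (u : ℝ)⁻¹ * (ε * ZP P1) := Finset.sum_le_sum hstep
    _ = (∑ u ∈ Y.image t, (u : ℝ)⁻¹) * (ε * ZP P1) := by rw [Finset.sum_mul]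
    _ ≤ ZP P2 * (ε * ZP P1) := by
        apply mul_le_mul_of_nonneg_right _ (mul_nonneg hε (ZP_pos h1).le)
        apply hzs P2 h2
        intro u hu
        obtain ⟨b, hb, rfl⟩ := Finset.mem_image.mp hu
        exact ht b (hY b hb)
    _ = ε * (ZP P1 * ZP P2) := by ring

/-- sums over a set which is small -/
lemma Sm.sum_ite {P : Finset ℕ} {A : Set ℕ} {ε : ℝ} (h : Sm P A ε) {Z : Finset ℕ}
    (hZ : ∀ b ∈ Z, b ∈ Nat.factoredNumbers P) [DecidablePred (· ∈ A)] :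
    ∑ b ∈ Z, (if b ∈ A then (b : ℝ)⁻¹ else 0) ≤ ε * ZP P := by
  rw [← Finset.sum_filter]
  apply h
  · intro b hb
    exact hZ b (Finset.mem_filter.mp hb).1
  · intro b hb
    exact (Finset.mem_filter.mp hb).2

/-- **the four corner argument** -/
theorem four_corners (hzs : S_zs) (hcs : S_cs) (hsp : S_sp)
    {P1 P2 : Finset ℕ} (h1 : ∀ p ∈ P1, p.Prime) (h2 : ∀ p ∈ P2, p.Prime) (hd : Disjoint P1 P2)
    {A : Set ℕ} {ε1 δ : ℝ} (hε1 : 0 ≤ ε1) (hδ : 0 ≤ δ) (hεδ : 3 * ε1 ≤ δ ^ 4)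
    (BA BB : ℕ → ℕ → Set ℕ) (BC : ℕ → ℕ → ℕ → Set ℕ)
    (hA : ∀ s s', Sm P2 (BA s s') ε1) (hB : ∀ t t', Sm P1 (BB t t') ε1)
    (hC : ∀ s t t', Sm P1 (BC s t t') ε1)
    (hcov : ∀ s s' t t', s ∈ Nat.factoredNumbers P1 → s' ∈ Nat.factoredNumbers P1 →
      t ∈ Nat.factoredNumbers P2 → t' ∈ Nat.factoredNumbers P2 →
      s * t ∈ A → s' * t ∈ A → s * t' ∈ A → s' * t' ∈ A →
      t ∈ BA s s' ∨ s' ∈ BB t t' ∨ s' ∈ BC s t t') :
    Sm (P1 ∪ P2) A δ := by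
  classical
  intro Y hY hYA
  choose! s hs t ht hst using hsp P1 P2 h1 h2 hd
  set X : Finset ℕ := Y.image s with hX
  set Z : Finset ℕ := Y.image t with hZ
  have hXf : ∀ a ∈ X, a ∈ Nat.factoredNumbers P1 := by
    intro a ha
    obtain ⟨b, hb, rfl⟩ := Finset.mem_image.mp ha
    exact hs b (hY b hb)
  have hZf : ∀ a ∈ Z, a ∈ Nat.factoredNumbers P2 := by
    intro a ha
    obtain ⟨b, hb, rfl⟩ := Finset.mem_image.mp ha
    exact ht b (hY b hb)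
  have hw : ∀ a : ℕ, (0 : ℝ) ≤ (a : ℝ)⁻¹ := fun a => by positivity
  have hZ1 := ZP_pos h1
  have hZ2 := ZP_pos h2
  -- step 1
  have step1 : ∑ b ∈ Y, (b : ℝ)⁻¹ ≤
      ∑ x ∈ X, ∑ z ∈ Z, if x * z ∈ A then (x : ℝ)⁻¹ * (z : ℝ)⁻¹ else 0 := by
    rw [← Finset.sum_product' (s := X) (t := Z)
      (f := fun x z => if x * z ∈ A then (x : ℝ)⁻¹ * (z : ℝ)⁻¹ else 0)]
    have hinj : Set.InjOn (fun b => (s b, t b)) (Y : Set ℕ) := by
      intro x hx y hy hxy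
      simp only [Prod.mk.injEq] at hxy
      rw [hst x (hY x hx), hst y (hY y hy), hxy.1, hxy.2]
    have h3 : ∑ b ∈ Y, (b : ℝ)⁻¹ = ∑ q ∈ Y.image (fun b => (s b, t b)),
        (if q.1 * q.2 ∈ A then (q.1 : ℝ)⁻¹ * (q.2 : ℝ)⁻¹ else 0) := by
      rw [Finset.sum_image hinj]
      apply Finset.sum_congr rfl
      intro b hb
      have h4 := hst b (hY b hb)
      simp only
      rw [← h4, if_pos (hYA b hb)]
      conv_lhs => rw [h4]
      push_cast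
      rw [mul_inv]
    rw [h3]
    apply Finset.sum_le_sum_of_subset_of_nonneg
    · intro q hq
      obtain ⟨b, hb, rfl⟩ := Finset.mem_image.mp hq
      exact Finset.mem_product.mpr ⟨Finset.mem_image_of_mem s hb, Finset.mem_image_of_mem t hb⟩
    · intro q _ _
      split_ifs
      · exact mul_nonneg (hw _) (hw _)
      · exact le_rfl
  -- step 2
  have step2 := hcs X Z (fun a => (a : ℝ)⁻¹) (fun a => (a : ℝ)⁻¹) (fun a _ => hw a)
    (fun a _ => hw a) (fun x z => x * z ∈ A)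
  have hsX : ∑ a ∈ X, (a : ℝ)⁻¹ ≤ ZP P1 := hzs P1 h1 X hXf
  have hsZ : ∑ a ∈ Z, (a : ℝ)⁻¹ ≤ ZP P2 := hzs P2 h2 Z hZf
  have hsX0 : 0 ≤ ∑ a ∈ X, (a : ℝ)⁻¹ := Finset.sum_nonneg fun a _ => hw a
  have hsZ0 : 0 ≤ ∑ a ∈ Z, (a : ℝ)⁻¹ := Finset.sum_nonneg fun a _ => hw a
  -- step 3
  have step3 : ∑ a ∈ X, ∑ a' ∈ X, ∑ b ∈ Z, ∑ b' ∈ Z,
      (if (a * b ∈ A ∧ a' * b ∈ A ∧ a * b' ∈ A ∧ a' * b' ∈ A) then
        (a : ℝ)⁻¹ * (a' : ℝ)⁻¹ * (b : ℝ)⁻¹ * (b' : ℝ)⁻¹ else 0) ≤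
      3 * ε1 * (ZP P1 ^ 2 * ZP P2 ^ 2) := by
    have e1 : ∑ a ∈ X, ∑ a' ∈ X, ∑ b ∈ Z, ∑ b' ∈ Z,
      (if (a * b ∈ A ∧ a' * b ∈ A ∧ a * b' ∈ A ∧ a' * b' ∈ A) then
        (a : ℝ)⁻¹ * (a' : ℝ)⁻¹ * (b : ℝ)⁻¹ * (b' : ℝ)⁻¹ else 0) ≤
      ∑ a ∈ X, ∑ a' ∈ X, ∑ b ∈ Z, ∑ b' ∈ Z,
        ((a : ℝ)⁻¹ * (a' : ℝ)⁻¹ * (if b ∈ BA a a' then (b : ℝ)⁻¹ else 0) * (b' : ℝ)⁻¹ +
          (a : ℝ)⁻¹ * (if a' ∈ BB b b' then (a' : ℝ)⁻¹ else 0) * (b : ℝ)⁻¹ * (b' : ℝ)⁻¹ +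
          (a : ℝ)⁻¹ * (if a' ∈ BC a b b' then (a' : ℝ)⁻¹ else 0) * (b : ℝ)⁻¹ * (b' : ℝ)⁻¹) := by
      apply Finset.sum_le_sum; intro a ha
      apply Finset.sum_le_sum; intro a' ha'
      apply Finset.sum_le_sum; intro b hb
      apply Finset.sum_le_sum; intro b' hb'
      have ha0 := hw a
      have ha0' := hw a'
      have hb0 := hw b
      have hb0' := hw b'
      by_cases hall : a * b ∈ A ∧ a' * b ∈ A ∧ a * b' ∈ A ∧ a' * b' ∈ A
      · rw [if_pos hall]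
        have hA0 : 0 ≤ (a : ℝ)⁻¹ * (a' : ℝ)⁻¹ * (if b ∈ BA a a' then (b : ℝ)⁻¹ else 0) *
            (b' : ℝ)⁻¹ := by split_ifs <;> positivity
        have hB0 : 0 ≤ (a : ℝ)⁻¹ * (if a' ∈ BB b b' then (a' : ℝ)⁻¹ else 0) * (b : ℝ)⁻¹ *
            (b' : ℝ)⁻¹ := by split_ifs <;> positivity
        have hC0 : 0 ≤ (a : ℝ)⁻¹ * (if a' ∈ BC a b b' then (a' : ℝ)⁻¹ else 0) * (b : ℝ)⁻¹ *
            (b' : ℝ)⁻¹ := by split_ifs <;> positivity
        rcases hcov a a' b b' (hXf a ha) (hXf a' ha') (hZf b hb) (hZf b' hb') hall.1 hall.2.1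
          hall.2.2.1 hall.2.2.2 with h | h | h
        · have : (a : ℝ)⁻¹ * (a' : ℝ)⁻¹ * (if b ∈ BA a a' then (b : ℝ)⁻¹ else 0) * (b' : ℝ)⁻¹ =
            (a : ℝ)⁻¹ * (a' : ℝ)⁻¹ * (b : ℝ)⁻¹ * (b' : ℝ)⁻¹ := by rw [if_pos h]
          linarith
        · have : (a : ℝ)⁻¹ * (if a' ∈ BB b b' then (a' : ℝ)⁻¹ else 0) * (b : ℝ)⁻¹ *
            (b' : ℝ)⁻¹ = (a : ℝ)⁻¹ * (a' : ℝ)⁻¹ * (b : ℝ)⁻¹ * (b' : ℝ)⁻¹ := by rw [if_pos h]
          linarith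
        · have : (a : ℝ)⁻¹ * (if a' ∈ BC a b b' then (a' : ℝ)⁻¹ else 0) * (b : ℝ)⁻¹ *
            (b' : ℝ)⁻¹ = (a : ℝ)⁻¹ * (a' : ℝ)⁻¹ * (b : ℝ)⁻¹ * (b' : ℝ)⁻¹ := by rw [if_pos h]
          linarith
      · rw [if_neg hall]
        have hA0 : 0 ≤ (a : ℝ)⁻¹ * (a' : ℝ)⁻¹ * (if b ∈ BA a a' then (b : ℝ)⁻¹ else 0) *
            (b' : ℝ)⁻¹ := by split_ifs <;> positivity
        have hB0 : 0 ≤ (a : ℝ)⁻¹ * (if a' ∈ BB b b' then (a' : ℝ)⁻¹ else 0) * (b : ℝ)⁻¹ *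
            (b' : ℝ)⁻¹ := by split_ifs <;> positivity
        have hC0 : 0 ≤ (a : ℝ)⁻¹ * (if a' ∈ BC a b b' then (a' : ℝ)⁻¹ else 0) * (b : ℝ)⁻¹ *
            (b' : ℝ)⁻¹ := by split_ifs <;> positivity
        linarith
    have eA : ∑ a ∈ X, ∑ a' ∈ X, ∑ b ∈ Z, ∑ b' ∈ Z,
        ((a : ℝ)⁻¹ * (a' : ℝ)⁻¹ * (if b ∈ BA a a' then (b : ℝ)⁻¹ else 0) * (b' : ℝ)⁻¹) ≤
        ε1 * (ZP P1 ^ 2 * ZP P2 ^ 2) := by
      calc _ = ∑ a ∈ X, ∑ a' ∈ X, ((a : ℝ)⁻¹ * (a' : ℝ)⁻¹ *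
            ((∑ b ∈ Z, if b ∈ BA a a' then (b : ℝ)⁻¹ else 0) * ∑ b' ∈ Z, (b' : ℝ)⁻¹)) := by
            apply Finset.sum_congr rfl; intro a _
            apply Finset.sum_congr rfl; intro a' _
            rw [Finset.sum_mul_sum, Finset.mul_sum]
            apply Finset.sum_congr rfl; intro b _
            rw [Finset.mul_sum]
            apply Finset.sum_congr rfl; intro b' _
            ring
        _ ≤ ∑ a ∈ X, ∑ a' ∈ X, ((a : ℝ)⁻¹ * (a' : ℝ)⁻¹ * ((ε1 * ZP P2) * ZP P2)) := by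
            apply Finset.sum_le_sum; intro a _
            apply Finset.sum_le_sum; intro a' _
            apply mul_le_mul_of_nonneg_left _ (mul_nonneg (hw _) (hw _))
            apply mul_le_mul ((hA a a').sum_ite hZf) hsZ hsZ0 (by positivity)
        _ = ((∑ a ∈ X, (a : ℝ)⁻¹) * (∑ a ∈ X, (a : ℝ)⁻¹)) * ((ε1 * ZP P2) * ZP P2) := by
            rw [Finset.sum_mul_sum, Finset.sum_mul]
            apply Finset.sum_congr rfl; intro a _
            rw [Finset.sum_mul]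
        _ ≤ (ZP P1 * ZP P1) * ((ε1 * ZP P2) * ZP P2) := by
            apply mul_le_mul_of_nonneg_right _ (by positivity)
            exact mul_le_mul hsX hsX hsX0 hZ1.le
        _ = _ := by ring
    have eB : ∀ B : ℕ → ℕ → ℕ → Set ℕ, (∀ a b b', Sm P1 (B a b b') ε1) →
        ∑ a ∈ X, ∑ a' ∈ X, ∑ b ∈ Z, ∑ b' ∈ Z,
        ((a : ℝ)⁻¹ * (if a' ∈ B a b b' then (a' : ℝ)⁻¹ else 0) * (b : ℝ)⁻¹ * (b' : ℝ)⁻¹) ≤
        ε1 * (ZP P1 ^ 2 * ZP P2 ^ 2) := by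
      intro B hB'
      calc _ = ∑ a ∈ X, ∑ b ∈ Z, ∑ b' ∈ Z, ((a : ℝ)⁻¹ * (b : ℝ)⁻¹ * (b' : ℝ)⁻¹ *
            (∑ a' ∈ X, if a' ∈ B a b b' then (a' : ℝ)⁻¹ else 0)) := by
            apply Finset.sum_congr rfl; intro a _
            rw [Finset.sum_comm]
            apply Finset.sum_congr rfl; intro b _
            rw [Finset.sum_comm]
            apply Finset.sum_congr rfl; intro b' _
            rw [Finset.mul_sum]
            apply Finset.sum_congr rfl; intro a' _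
            ring
        _ ≤ ∑ a ∈ X, ∑ b ∈ Z, ∑ b' ∈ Z, ((a : ℝ)⁻¹ * (b : ℝ)⁻¹ * (b' : ℝ)⁻¹ *
            (ε1 * ZP P1)) := by
            apply Finset.sum_le_sum; intro a _
            apply Finset.sum_le_sum; intro b _
            apply Finset.sum_le_sum; intro b' _
            apply mul_le_mul_of_nonneg_left _
              (mul_nonneg (mul_nonneg (hw _) (hw _)) (hw _))
            exact (hB' a b b').sum_ite hXf
        _ = ((∑ a ∈ X, (a : ℝ)⁻¹) * ((∑ b ∈ Z, (b : ℝ)⁻¹) * (∑ b' ∈ Z, (b' : ℝ)⁻¹))) *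
            (ε1 * ZP P1) := by
            rw [Finset.sum_mul_sum, Finset.sum_mul, Finset.sum_mul]
            apply Finset.sum_congr rfl; intro a _
            rw [Finset.mul_sum, Finset.sum_mul]
            apply Finset.sum_congr rfl; intro b _
            rw [Finset.mul_sum, Finset.sum_mul]
            apply Finset.sum_congr rfl; intro b' _
            ring
        _ ≤ (ZP P1 * (ZP P2 * ZP P2)) * (ε1 * ZP P1) := by
            apply mul_le_mul_of_nonneg_right _ (by positivity)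
            exact mul_le_mul hsX (mul_le_mul hsZ hsZ hsZ0 hZ2.le) (mul_nonneg hsZ0 hsZ0) hZ1.le
        _ = _ := by ring
    refine e1.trans ?_
    simp only [Finset.sum_add_distrib]
    have f1 := eB (fun _ b b' => BB b b') (fun _ b b' => hB b b')
    have f2 := eB BC hC
    linarith
  -- step 4
  have step4 : (∑ x ∈ X, ∑ z ∈ Z, if x * z ∈ A then (x : ℝ)⁻¹ * (z : ℝ)⁻¹ else 0) ^ 4 ≤
      (δ * (ZP P1 * ZP P2)) ^ 4 := by
    refine step2.trans ?_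
    calc _ ≤ (ZP P1 ^ 2 * ZP P2 ^ 2) * (3 * ε1 * (ZP P1 ^ 2 * ZP P2 ^ 2)) := by
          apply mul_le_mul _ step3 _ (by positivity)
          · apply mul_le_mul (pow_le_pow_left₀ hsX0 hsX 2) (pow_le_pow_left₀ hsZ0 hsZ 2)
              (by positivity) (by positivity)
          · apply Finset.sum_nonneg; intro a _
            apply Finset.sum_nonneg; intro a' _
            apply Finset.sum_nonneg; intro b _
            apply Finset.sum_nonneg; intro b' _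
            split_ifs
            · have := hw a; have := hw a'; have := hw b; have := hw b'
              positivity
            · exact le_rfl
      _ ≤ (ZP P1 ^ 2 * ZP P2 ^ 2) * (δ ^ 4 * (ZP P1 ^ 2 * ZP P2 ^ 2)) := by
          apply mul_le_mul_of_nonneg_left _ (by positivity)
          exact mul_le_mul_of_nonneg_right hεδ (by positivity)
      _ = _ := by ring
  have step5 := le_of_pow_le_pow_left₀ (by norm_num : (4 : ℕ) ≠ 0) (by positivity) step4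
  rw [ZP_union hd]
  exact step1.trans step5

end Pool.Agent.Lib.MP_c82530_nt.AA
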