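import Mathlib
import Pool.Agent.Lib.MP_c82530_nt.AA.Core
import Pool.Agent.Lib.MP_c82530_nt.AA.Meas

set_option autoImplicit false

namespace Pool.Agent.Lib.MP_c82530_nt.AA

open Set Pool.Agent.Lib.MP_c82530_nt Module

lemma exists_int_mult (P : Finset ℕ) (h : ℕ → ℚ) :
    ∃ N : ℕ, N ≠ 0 ∧ ∃ a : ℕ → ℤ, ∀ p ∈ P, (a p : ℚ) = N * h p := by
  classical
  refine ⟨∏ p ∈ P, (h p).den, ?_, ?_⟩
  · rw [Finset.prod_ne_zero_iff]
    intro p _
    exact (h p).den_ne_zero
  · refine ⟨fun p => (h p).num * ∏ q ∈ P.erase p, ((h q).den : ℤ), ?_⟩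
    intro p hp
    rw [← Finset.mul_prod_erase P _ hp]
    push_cast
    have h1 : (h p) * ((h p).den : ℚ) = (h p).num := Rat.mul_den_eq_num (h p)
    rw [← h1]
    ring

lemma log_eq_sum {P : Finset ℕ} {b : ℕ} (hb : b ∈ Nat.factoredNumbers P) :
    (Real.log b : ℂ) = ∑ p ∈ P, ((b.factorization p : ℚ) • (Real.log p : ℂ)) := by
  rw [Real.log_nat_eq_sum_factorization]
  have h1 : b.factorization.support ⊆ P := by
    rw [Nat.support_factorization]
    exact Nat.primeFactors_subset_of_mem_factoredNumbers hb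
  rw [Finsupp.sum_of_support_subset _ h1 _ (by simp)]
  push_cast
  apply Finset.sum_congr rfl
  intro p _
  rw [Rat.smul_def]
  push_cast
  rfl

open Classical in
/-- the primes in `P` whose logarithm is not in `K` -/
noncomputable def Out (K : Submodule ℚ ℂ) (P : Finset ℕ) : Finset ℕ :=
  P.filter (fun p : ℕ => ((Real.log (p : ℝ) : ℝ) : ℂ) ∉ K)

/-- harmonic weight of the primes whose logarithm is not in `K` -/
noncomputable def EK (K : Submodule ℚ ℂ) (P : Finset ℕ) : ℝ := ∑ p ∈ Out K P, (p : ℝ)⁻¹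

lemma mem_Out {K : Submodule ℚ ℂ} {P : Finset ℕ} {p : ℕ} :
    p ∈ Out K P ↔ p ∈ P ∧ ((Real.log (p : ℝ) : ℝ) : ℂ) ∉ K := by
  classical
  unfold Out
  rw [Finset.mem_filter]

/-- **Littlewood-Offord for a rational subspace** -/
theorem lo_sub (hlo : S_lo) : ∃ C : ℝ, 0 < C ∧ ∀ (P : Finset ℕ), (∀ p ∈ P, p.Prime) →
    ∀ (K : Submodule ℚ ℂ) (g : ℂ), 0 < EK K P →
    Sm P {b | g + ((Real.log (b : ℝ) : ℝ) : ℂ) ∈ K} (C / √(EK K P)) := by
  classical
  obtain ⟨C, hC, h⟩ := hlo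
  refine ⟨C, hC, ?_⟩
  intro P hP K g hE Y hY hYA
  by_cases hY0 : Y = ∅
  · rw [hY0, Finset.sum_empty]
    exact mul_nonneg (div_nonneg hC.le (Real.sqrt_nonneg _)) (ZP_pos hP).le
  obtain ⟨b0, hb0⟩ := Finset.nonempty_iff_ne_empty.mpr hY0
  let lg : ℕ → ℂ := fun p => ((Real.log (p : ℝ) : ℝ) : ℂ)
  obtain ⟨f, hf⟩ := Module.exists_dual_forall_apply_ne_zero (K := ℚ)
    (fun p : {p // p ∈ Out K P} => (Submodule.Quotient.mk (lg (p : ℕ)) : ℂ ⧸ K)) (by
      intro p
      rw [ne_eq, Submodule.Quotient.mk_eq_zero]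
      exact (mem_Out.mp p.2).2)
  obtain ⟨N, hN, a, ha⟩ := exists_int_mult P (fun p => f (Submodule.Quotient.mk (lg p)))
  have hane : ∀ p ∈ P, (a p ≠ 0 ↔ lg p ∉ K) := by
    intro p hp
    constructor
    · intro h1 h2
      apply h1
      have h3 := ha p hp
      rw [(Submodule.Quotient.mk_eq_zero K).mpr h2, map_zero, mul_zero] at h3
      exact_mod_cast h3
    · intro h1 h2
      have h3 := ha p hp
      rw [h2] at h3
      have h4 := hf ⟨p, mem_Out.mpr ⟨hp, h1⟩⟩
      have : (N : ℚ) ≠ 0 := by exact_mod_cast hN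
      rw [Int.cast_zero] at h3
      rcases mul_eq_zero.mp h3.symm with h5 | h5
      · exact this h5
      · exact h4 h5
  have hfil : (P.filter fun p => a p ≠ 0) = Out K P := by
    ext p
    rw [Finset.mem_filter, mem_Out]
    constructor
    · rintro ⟨hp, h1⟩
      exact ⟨hp, (hane p hp).mp h1⟩
    · rintro ⟨hp, h1⟩
      exact ⟨hp, (hane p hp).mpr h1⟩
  have hval : ∀ b ∈ Nat.factoredNumbers P, ((∑ p ∈ P, (b.factorization p : ℤ) * a p : ℤ) : ℚ) =
      N * f (Submodule.Quotient.mk (lg b)) := by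
    intro b hb
    have h0 : lg b = ∑ p ∈ P, ((b.factorization p : ℚ) • lg p) := log_eq_sum hb
    rw [h0]
    have h1 : (Submodule.Quotient.mk (∑ p ∈ P, ((b.factorization p : ℚ) • lg p)) :
        ℂ ⧸ K) = ∑ p ∈ P, (b.factorization p : ℚ) • (Submodule.Quotient.mk (lg p)) := by
      rw [← Submodule.mkQ_apply, map_sum]
      apply Finset.sum_congr rfl
      intro p _
      rw [map_smul, Submodule.mkQ_apply]
    rw [h1, map_sum, Finset.mul_sum, Int.cast_sum]
    apply Finset.sum_congr rfl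
    intro p hp
    rw [map_smul, Int.cast_mul, ha p hp, smul_eq_mul, Int.cast_natCast]
    ring
  have := h P hP a (∑ p ∈ P, (b0.factorization p : ℤ) * a p) Y hY ?_ ?_
  · rw [hfil] at this
    exact this
  · intro b hb
    have h1 := hval b (hY b hb)
    have h2 := hval b0 (hY b0 hb0)
    have h3 : (Submodule.Quotient.mk (lg b) : ℂ ⧸ K) = Submodule.Quotient.mk (lg b0) := by
      rw [Submodule.Quotient.eq]
      have h4 : g + lg b ∈ K := hYA b hb
      have h5 : g + lg b0 ∈ K := hYA b0 hb0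
      have h6 := K.sub_mem h4 h5
      have h7 : g + lg b - (g + lg b0) = lg b - lg b0 := by ring
      rwa [h7] at h6
    rw [h3, ← h2] at h1
    exact_mod_cast h1
  · rw [hfil]
    exact hE

/-- the space `K_W` -/
noncomputable def KK (W : Submodule ℚ ℂ) : Submodule ℚ ℂ :=
  (clF (expSet W)).toSubalgebra.toSubmodule

lemma mem_KK {W : Submodule ℚ ℂ} {z : ℂ} : z ∈ KK W ↔ InK W z := mem_clF

lemma EK_nonneg (K : Submodule ℚ ℂ) (P : Finset ℕ) : 0 ≤ EK K P :=
  Finset.sum_nonneg fun p _ => by positivity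

lemma EK_mono {K : Submodule ℚ ℂ} {P P' : Finset ℕ} (h : P ⊆ P') : EK K P ≤ EK K P' := by
  classical
  apply Finset.sum_le_sum_of_subset_of_nonneg
  · exact Finset.filter_subset_filter _ h
  · intro p _ _; positivity

/-- harmonic weight of the primes whose logarithm is not in `K_W` -/
noncomputable def EW (W : Submodule ℚ ℂ) (P : Finset ℕ) : ℝ := EK (KK W) P

lemma EW_nonneg (W : Submodule ℚ ℂ) (P : Finset ℕ) : 0 ≤ EW W P := EK_nonneg _ _

lemma EW_mono {W : Submodule ℚ ℂ} {P P' : Finset ℕ} (h : P ⊆ P') : EW W P ≤ EW W P' := EK_mono h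

lemma EW_inf {W1 W2 : Submodule ℚ ℂ} (h1 : Good W1) (h2 : Good W2) (P : Finset ℕ) :
    EW (W1 ⊓ W2) P ≤ EW W1 P + EW W2 P := by
  classical
  unfold EW EK Out
  rw [Finset.sum_filter, Finset.sum_filter, Finset.sum_filter, ← Finset.sum_add_distrib]
  apply Finset.sum_le_sum
  intro p _
  have hp : (0 : ℝ) ≤ (p : ℝ)⁻¹ := by positivity
  by_cases a1 : ((Real.log (p : ℝ) : ℝ) : ℂ) ∈ KK W1
  · by_cases a2 : ((Real.log (p : ℝ) : ℝ) : ℂ) ∈ KK W2
    · have : ((Real.log (p : ℝ) : ℝ) : ℂ) ∈ KK (W1 ⊓ W2) := by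
        rw [mem_KK] at a1 a2 ⊢
        exact InK.inf h1 h2 a1 a2
      rw [if_neg (not_not.mpr this), if_neg (not_not.mpr a1), if_neg (not_not.mpr a2), add_zero]
    · rw [if_neg (not_not.mpr a1), if_pos a2]
      split_ifs <;> linarith
  · rw [if_pos a1]
    split_ifs <;> linarith

/-- co-small spaces -/
def CoSmall (W : Submodule ℚ ℂ) : Prop :=
  Good W ∧ ∃ C : ℝ, ∀ P : Finset ℕ, (∀ p ∈ P, p.Prime) → EW W P ≤ C

lemma CoSmall.inf {W1 W2 : Submodule ℚ ℂ} (h1 : CoSmall W1) (h2 : CoSmall W2) :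
    CoSmall (W1 ⊓ W2) := by
  obtain ⟨g1, C1, hC1⟩ := h1
  obtain ⟨g2, C2, hC2⟩ := h2
  exact ⟨g1.inf, C1 + C2, fun P hP => (EW_inf g1 g2 P).trans (add_le_add (hC1 P hP) (hC2 P hP))⟩

lemma prime_primesBelow {x : ℕ} : ∀ p ∈ Nat.primesBelow x, p.Prime :=
  fun _ hp => Nat.prime_of_mem_primesBelow hp

lemma subset_primesBelow {P : Finset ℕ} (hP : ∀ p ∈ P, p.Prime) {x : ℕ} (hx : P.sup id < x) :
    P ⊆ Nat.primesBelow x := by
  intro p hp
  rw [Nat.mem_primesBelow]
  exact ⟨lt_of_le_of_lt (Finset.le_sup (f := id) hp) hx, hP p hp⟩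

lemma primesBelow_mono {x y : ℕ} (h : x ≤ y) : Nat.primesBelow x ⊆ Nat.primesBelow y := by
  intro p hp
  rw [Nat.mem_primesBelow] at hp ⊢
  exact ⟨lt_of_lt_of_le hp.1 h, hp.2⟩

/-- not co-small: the weights are unbounded -/
lemma exists_large {W : Submodule ℚ ℂ} (hW : Good W) (h : ¬ CoSmall W) (C : ℝ) :
    ∃ x : ℕ, ∀ y, x ≤ y → C ≤ EW W (Nat.primesBelow y) := by
  by_contra hcon
  push Not at hcon
  apply h
  refine ⟨hW, C, fun P hP => ?_⟩
  obtain ⟨y, hy, hy2⟩ := hcon (P.sup id + 1)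
  exact (EW_mono (subset_primesBelow hP (by omega))).trans hy2.le

/-- **compactness** -/
theorem compactness (hno : ∀ W, ¬ CoSmall W) : ∀ (d : ℕ) (C : ℝ), ∃ x : ℕ,
    ∀ W, Good W → finrank ℚ W ≤ d → C ≤ EW W (Nat.primesBelow x) := by
  intro d
  induction d with
  | zero =>
    intro C
    obtain ⟨x, hx⟩ := exists_large Good.bot (hno ⊥) C
    refine ⟨x, fun W hW hd => ?_⟩
    have := hW.1
    have hW0 : W = ⊥ := by
      rw [← Submodule.finrank_eq_zero (R := ℚ)]
      omega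
    rw [hW0]
    exact hx x le_rfl
  | succ d ih =>
    intro C
    by_contra hcon
    push Not at hcon
    obtain ⟨x0, hx0⟩ := ih (2 * C)
    choose Wx hg hr hlt using hcon
    have key : ∀ x, x0 ≤ x → Wx x = Wx x0 := by
      intro x hx
      have f1 := (hg x).1
      have f0 := (hg x0).1
      have h1 : EW (Wx x ⊓ Wx x0) (Nat.primesBelow x0) < 2 * C := by
        have h2 := EW_inf (hg x) (hg x0) (Nat.primesBelow x0)
        have h3 : EW (Wx x) (Nat.primesBelow x0) ≤ EW (Wx x) (Nat.primesBelow x) :=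
          EW_mono (primesBelow_mono hx)
        have h4 := hlt x
        have h5 := hlt x0
        linarith
      have h2 : d < finrank ℚ (Wx x ⊓ Wx x0 : Submodule ℚ ℂ) := by
        by_contra h3
        push Not at h3
        exact absurd (hx0 _ (hg x).inf h3) (not_le.mpr h1)
      have e1 : Wx x ⊓ Wx x0 = Wx x :=
        Submodule.eq_of_le_of_finrank_le inf_le_left (by have := hr x; omega)
      have e2 : Wx x ⊓ Wx x0 = Wx x0 :=
        Submodule.eq_of_le_of_finrank_le inf_le_right (by have := hr x0; omega)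
      exact e1.symm.trans e2
    obtain ⟨x, hx⟩ := exists_large (hg x0) (hno _) C
    have h1 := hx (max x x0) (le_max_left _ _)
    have h2 := hlt (max x x0)
    rw [key _ (le_max_right _ _)] at h2
    linarith

theorem compactness' (hno : ∀ W, ¬ CoSmall W) (M : ℕ) (C : ℝ) (x₀ : ℕ) : ∃ P : Finset ℕ,
    (∀ p ∈ P, p.Prime ∧ x₀ < p) ∧ ∀ W, Good W → finrank ℚ W ≤ M → C ≤ EW W P := by
  classical
  obtain ⟨x, hx⟩ := compactness hno M (C + ∑ p ∈ Finset.range (x₀ + 1), (p : ℝ)⁻¹)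
  refine ⟨(Nat.primesBelow x).filter (fun p => x₀ < p), ?_, fun W hW hM => ?_⟩
  · intro p hp
    rw [Finset.mem_filter] at hp
    exact ⟨prime_primesBelow p hp.1, hp.2⟩
  · have h1 := hx W hW hM
    have h2 : EW W (Nat.primesBelow x) ≤
        EW W ((Nat.primesBelow x).filter (fun p => x₀ < p)) +
          ∑ p ∈ Finset.range (x₀ + 1), (p : ℝ)⁻¹ := by
      unfold EW EK
      rw [← Finset.sum_filter_add_sum_filter_not (Out (KK W) (Nat.primesBelow x))
        (fun p => x₀ < p)]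
      apply add_le_add
      · apply le_of_eq
        apply Finset.sum_congr _ (fun _ _ => rfl)
        ext p
        simp only [Finset.mem_filter, mem_Out]
        tauto
      · apply Finset.sum_le_sum_of_subset_of_nonneg
        · intro p hp
          rw [Finset.mem_filter] at hp
          rw [Finset.mem_range]
          have := hp.2
          omega
        · intro p _ _; positivity
    linarith

end Pool.Agent.Lib.MP_c82530_nt.AA
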