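import Mathlib
import Pool.Agent.Lib.MP_c82530_nt.AA.Meas

set_option autoImplicit false

namespace Pool.Agent.Lib.MP_c82530_nt.AA

open scoped BigOperators

lemma harm_le (n : ℕ) : ∑ b ∈ Finset.Icc 1 n, (b : ℝ)⁻¹ ≤ 1 + Real.log n := by
  have h := harmonic_le_one_add_log n
  rw [harmonic_eq_sum_Icc] at h
  push_cast at h
  exact h

theorem exists_half {P : Finset ℕ} (hP : ∀ p ∈ P, p.Prime) :
    ∃ T : Finset ℕ, (∀ s ∈ T, s ∈ Nat.factoredNumbers P) ∧ ZP P / 2 ≤ ∑ s ∈ T, (s : ℝ)⁻¹ := by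
  classical
  let f : ℕ →* ℝ :=
    { toFun := fun n => (n : ℝ)⁻¹
      map_one' := by simp
      map_mul' := fun a b => by simp [mul_comm] }
  have hf : ∀ n : ℕ, f n = (n : ℝ)⁻¹ := fun n => rfl
  have h1 : ∀ {p : ℕ}, p.Prime → ‖f p‖ < 1 := by
    intro p hp
    rw [hf, norm_inv, Real.norm_natCast]
    exact inv_lt_one_of_one_lt₀ (by exact_mod_cast hp.one_lt)
  obtain ⟨h2, h3⟩ := EulerProduct.summable_and_hasSum_factoredNumbers_prod_filter_prime_geometric
    (f := f) h1 P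
  have h4 : ∏ p ∈ P with p.Prime, (1 - f p)⁻¹ = ZP P := by
    unfold ZP
    rw [Finset.filter_true_of_mem hP]
    exact Finset.prod_congr rfl fun p _ => by rw [hf]
  rw [h4] at h3
  have h5 := ZP_pos hP
  obtain ⟨S, hS⟩ := (h3.eventually (lt_mem_nhds (show ZP P / 2 < ZP P by linarith))).exists
  refine ⟨S.image Subtype.val, ?_, ?_⟩
  · intro s hs
    obtain ⟨x, _, rfl⟩ := Finset.mem_image.mp hs
    exact x.2
  · rw [Finset.sum_image (fun a _ b _ h => Subtype.ext h)]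
    exact hS.le

lemma coprime_fac {P1 P2 : Finset ℕ} (hd : Disjoint P1 P2) {s t : ℕ}
    (hs : s ∈ Nat.factoredNumbers P1) (ht : t ∈ Nat.factoredNumbers P2) : Nat.Coprime s t := by
  rw [Nat.mem_factoredNumbers'] at hs ht
  apply Nat.Coprime.symm
  apply Nat.coprime_of_dvd
  intro p hp h1 h2
  exact Finset.disjoint_left.mp hd (hs p hp h2) (ht p hp h1)

lemma fac_inj {P1 P2 : Finset ℕ} (hd : Disjoint P1 P2) {s t s' t' : ℕ}
    (hs : s ∈ Nat.factoredNumbers P1) (ht : t ∈ Nat.factoredNumbers P2)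
    (hs' : s' ∈ Nat.factoredNumbers P1) (ht' : t' ∈ Nat.factoredNumbers P2)
    (h : s * t = s' * t') : s = s' ∧ t = t' := by
  have hs0 := Nat.ne_zero_of_mem_factoredNumbers hs
  have h1 : s ∣ s' := (coprime_fac hd hs ht').dvd_of_dvd_mul_right (Dvd.intro _ h)
  have h2 : s' ∣ s := (coprime_fac hd hs' ht).dvd_of_dvd_mul_right (Dvd.intro _ h.symm)
  have h3 : s = s' := Nat.dvd_antisymm h1 h2
  subst h3
  exact ⟨rfl, Nat.eq_of_mul_eq_mul_left (Nat.pos_of_ne_zero hs0) h⟩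

/-- from smallness on a finite set of primes to sums up to `N` -/
def S_mt2 : Prop := ∃ C : ℝ, 0 < C ∧ ∀ P : Finset ℕ, (∀ p ∈ P, p.Prime) →
    ∃ N₀ : ℕ, ∀ N, N₀ ≤ N → ∀ (A : Set ℕ) (ε : ℝ), 0 ≤ ε →
      (∀ t : ℕ, t ≠ 0 → Sm P {s | s * t ∈ A} ε) →
      ∑ b ∈ Finset.Icc 1 N, A.indicator (fun b : ℕ => (b : ℝ)⁻¹) b ≤ ε * (C * Real.log N)

/-- no Mertens theorem is needed -/
theorem p_mt2 (hsp : S_sp) : S_mt2 := by
  classical
  refine ⟨6, by norm_num, fun P hP => ?_⟩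
  obtain ⟨T, hT, hTs⟩ := exists_half hP
  refine ⟨max (max 3 (T.sup id)) (P.sup id), fun N hN A ε hε h => ?_⟩
  have hN3 : 3 ≤ N := ((le_max_left _ _).trans (le_max_left _ _)).trans hN
  have hNT : T.sup id ≤ N := ((le_max_right _ _).trans (le_max_left _ _)).trans hN
  have hNP : P.sup id ≤ N := (le_max_right _ _).trans hN
  have hZ := ZP_pos hP
  have hsub : P ⊆ Nat.primesBelow (N + 1) := by
    intro p hp
    rw [Nat.mem_primesBelow]
    exact ⟨Nat.lt_succ_of_le ((Finset.le_sup (f := id) hp).trans hNP), hP p hp⟩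
  set P2 : Finset ℕ := Nat.primesBelow (N + 1) \ P with hP2
  have h2p : ∀ p ∈ P2, p.Prime := fun p hp =>
    Nat.prime_of_mem_primesBelow (Finset.mem_sdiff.mp hp).1
  have hd : Disjoint P P2 := Finset.disjoint_sdiff
  have hlog : 1 ≤ Real.log N := by
    rw [Real.le_log_iff_exp_le (by exact_mod_cast (by omega : 0 < N))]
    have h3 : Real.exp 1 ≤ 3 := by
      have := Real.exp_one_lt_d9
      linarith
    exact h3.trans (by exact_mod_cast hN3)
  -- the integers up to `N` in `A`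
  set Y : Finset ℕ := (Finset.Icc 1 N).filter (· ∈ A) with hY
  have hYf : ∀ b ∈ Y, b ∈ Nat.factoredNumbers (P ∪ P2) := by
    intro b hb
    rw [hY, Finset.mem_filter, Finset.mem_Icc] at hb
    rw [Finset.union_sdiff_of_subset hsub, Nat.mem_factoredNumbers]
    refine ⟨by omega, fun p hp => ?_⟩
    rw [Nat.mem_primesBelow]
    exact ⟨lt_of_le_of_lt (Nat.le_of_mem_primeFactorsList hp) (by omega),
      Nat.prime_of_mem_primeFactorsList hp⟩
  choose! s hs t ht hst using hsp P P2 hP h2p hd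
  set 𝒯 : Finset ℕ := (Finset.Icc 1 N).filter (· ∈ Nat.factoredNumbers P2) with h𝒯
  -- step 1
  have step1 : ∑ b ∈ Y, (b : ℝ)⁻¹ ≤ (∑ u ∈ 𝒯, (u : ℝ)⁻¹) * (ε * ZP P) := by
    have hmaps : ∀ b ∈ Y, t b ∈ 𝒯 := by
      intro b hb
      rw [h𝒯, Finset.mem_filter, Finset.mem_Icc]
      have h1 := ht b (hYf b hb)
      have h2 := hst b (hYf b hb)
      have h3 : b ≤ N := by
        rw [hY, Finset.mem_filter, Finset.mem_Icc] at hb; exact hb.1.2
      have h4 := Nat.ne_zero_of_mem_factoredNumbers h1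
      have h5 := Nat.ne_zero_of_mem_factoredNumbers (hs b (hYf b hb))
      refine ⟨⟨by omega, ?_⟩, h1⟩
      have : t b ≤ b := by
        conv_rhs => rw [h2]
        exact Nat.le_mul_of_pos_left _ (Nat.pos_of_ne_zero h5)
      omega
    rw [← Finset.sum_fiberwise_of_maps_to hmaps, Finset.sum_mul]
    apply Finset.sum_le_sum
    intro u hu
    have huf : u ∈ Nat.factoredNumbers P2 := (Finset.mem_filter.mp hu).2
    have hinj : Set.InjOn s (Y.filter fun b => t b = u : Finset ℕ) := by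
      intro x hx y hy hxy
      simp only [Finset.coe_filter, Set.mem_setOf_eq] at hx hy
      rw [hst x (hYf x hx.1), hst y (hYf y hy.1), hxy, hx.2, hy.2]
    have h3 : ∑ b ∈ Y with t b = u, (b : ℝ)⁻¹ =
        (u : ℝ)⁻¹ * ∑ a ∈ (Y.filter fun b => t b = u).image s, (a : ℝ)⁻¹ := by
      rw [Finset.sum_image hinj, Finset.mul_sum]
      apply Finset.sum_congr rfl
      intro b hb
      rw [Finset.mem_filter] at hb
      have := hst b (hYf b hb.1)
      rw [hb.2] at this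
      conv_lhs => rw [this]
      push_cast
      rw [mul_inv, mul_comm]
    rw [h3]
    apply mul_le_mul_of_nonneg_left _ (by positivity)
    apply h u (Nat.ne_zero_of_mem_factoredNumbers huf)
    · intro a ha
      obtain ⟨b, hb, rfl⟩ := Finset.mem_image.mp ha
      exact hs b (hYf b (Finset.mem_filter.mp hb).1)
    · intro a ha
      obtain ⟨b, hb, rfl⟩ := Finset.mem_image.mp ha
      rw [Finset.mem_filter] at hb
      change s b * u ∈ A
      rw [← hb.2, ← hst b (hYf b hb.1)]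
      exact (Finset.mem_filter.mp hb.1).2
  -- step 2
  have step2 : (∑ a ∈ T, (a : ℝ)⁻¹) * (∑ u ∈ 𝒯, (u : ℝ)⁻¹) ≤ 3 * Real.log N := by
    have h1 : (∑ a ∈ T, (a : ℝ)⁻¹) * (∑ u ∈ 𝒯, (u : ℝ)⁻¹) =
        ∑ b ∈ (T ×ˢ 𝒯).image (fun q : ℕ × ℕ => q.1 * q.2), ((b : ℕ) : ℝ)⁻¹ := by
      rw [Finset.sum_image, Finset.sum_mul_sum, ← Finset.sum_product']
      · apply Finset.sum_congr rfl
        intro q _
        push_cast
        rw [mul_inv]
      · intro q hq q' hq' hqq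
        simp only [Finset.coe_product, Set.mem_prod, Finset.mem_coe] at hq hq'
        have hqq' : q.1 * q.2 = q'.1 * q'.2 := hqq
        have := fac_inj hd (hT _ hq.1) (Finset.mem_filter.mp hq.2).2 (hT _ hq'.1)
          (Finset.mem_filter.mp hq'.2).2 hqq'
        exact Prod.ext this.1 this.2
    rw [h1]
    have h2 : ∑ b ∈ (T ×ˢ 𝒯).image (fun q : ℕ × ℕ => q.1 * q.2), (b : ℝ)⁻¹ ≤
        ∑ b ∈ Finset.Icc 1 (N * N), (b : ℝ)⁻¹ := by
      apply Finset.sum_le_sum_of_subset_of_nonneg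
      · intro b hb
        obtain ⟨q, hq, rfl⟩ := Finset.mem_image.mp hb
        rw [Finset.mem_product] at hq
        have ha0 := Nat.ne_zero_of_mem_factoredNumbers (hT _ hq.1)
        have haN : q.1 ≤ N := (Finset.le_sup (f := id) hq.1).trans hNT
        have hu := Finset.mem_filter.mp hq.2
        rw [Finset.mem_Icc] at hu ⊢
        refine ⟨?_, Nat.mul_le_mul haN hu.1.2⟩
        exact Nat.mul_pos (Nat.pos_of_ne_zero ha0) hu.1.1
      · intro b _ _; positivity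
    refine h2.trans ((harm_le (N * N)).trans ?_)
    push_cast
    rw [Real.log_mul (by positivity) (by positivity)]
    linarith
  have hT0 : 0 ≤ ∑ u ∈ 𝒯, (u : ℝ)⁻¹ := Finset.sum_nonneg fun u _ => by positivity
  have step3 : ZP P / 2 * (∑ u ∈ 𝒯, (u : ℝ)⁻¹) ≤ 3 * Real.log N :=
    (mul_le_mul_of_nonneg_right hTs hT0).trans step2
  have e0 : ∑ b ∈ Finset.Icc 1 N, A.indicator (fun b : ℕ => (b : ℝ)⁻¹) b = ∑ b ∈ Y, (b : ℝ)⁻¹ := by
    rw [hY, Finset.sum_filter]
    apply Finset.sum_congr rfl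
    intro b _
    rw [Set.indicator_apply]
  rw [e0]
  refine step1.trans ?_
  have e1 : (∑ u ∈ 𝒯, (u : ℝ)⁻¹) * (ε * ZP P) = ε * (2 * (ZP P / 2 * (∑ u ∈ 𝒯, (u : ℝ)⁻¹))) := by
    ring
  rw [e1]
  apply mul_le_mul_of_nonneg_left _ hε
  linarith

end Pool.Agent.Lib.MP_c82530_nt.AA
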