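import Mathlib
import Pool.Agent.Lib.MP_c82530_nt.AA.Core
import Pool.Agent.Lib.MP_c82530_nt.AA.Meas

set_option autoImplicit false

namespace Pool.Agent.Lib.MP_c82530_nt.AA

open Set Pool.Agent.Lib.MP_c82530_nt Module

/-- the uniform smallness statement -/
def Q (r : ℕ) : Prop := ∀ (M : ℕ) (ε : ℝ), 0 < ε → ∀ x₀ : ℕ, ∃ P : Finset ℕ,
  (∀ p ∈ P, p.Prime ∧ x₀ < p) ∧
    ∀ W : Submodule ℚ ℂ, Good W → finrank ℚ W ≤ M → ∀ g : ℂ, Sm P (Bad r W g) ε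

/-- bad with respect to the least space over `W` attached to `y` -/
def BadL (r : ℕ) (W : Submodule ℚ ℂ) (M : ℕ) (y h : ℂ) : Set ℕ :=
  {b | ∃ V, Good V ∧ W ≤ V ∧ finrank ℚ V ≤ M ∧ InK V y ∧
    (∀ S, Good S → W ≤ S → InK S y → V ≤ S) ∧ b ∈ Bad r V h}

lemma BadL_sm {P : Finset ℕ} (hP : ∀ p ∈ P, p.Prime) {r M : ℕ} {ε : ℝ} (hε : 0 ≤ ε)
    (h : ∀ W : Submodule ℚ ℂ, Good W → finrank ℚ W ≤ M → ∀ g : ℂ, Sm P (Bad r W g) ε)
    (W : Submodule ℚ ℂ) (y g : ℂ) : Sm P (BadL r W M y g) ε := by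
  by_cases hex : ∃ V, Good V ∧ W ≤ V ∧ finrank ℚ V ≤ M ∧ InK V y ∧
    (∀ S, Good S → W ≤ S → InK S y → V ≤ S)
  · obtain ⟨V, hV1, hV2, hV3, hV4, hV5⟩ := hex
    apply (h V hV1 hV3 g).mono hP _ le_rfl
    rintro b ⟨V', hV1', hV2', hV3', hV4', hV5', hb⟩
    have : V' = V := le_antisymm (hV5' V hV1 hV2 hV4) (hV5 V' hV1' hV2' hV4')
    rwa [this] at hb
  · intro Y hY hYA
    have : Y = ∅ := by
      rw [Finset.eq_empty_iff_forall_notMem]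
      intro b hb
      obtain ⟨V, hV1, hV2, hV3, hV4, hV5, _⟩ := hYA b hb
      exact hex ⟨V, hV1, hV2, hV3, hV4, hV5⟩
    rw [this, Finset.sum_empty]
    exact mul_nonneg hε (ZP_pos hP).le

lemma Bad_mono {r r' : ℕ} (h : r ≤ r') (W : Submodule ℚ ℂ) (g : ℂ) : Bad r W g ⊆ Bad r' W g := by
  rintro b ⟨S, h1, h2, h3, h4⟩
  exact ⟨S, h1, h2, by omega, h4⟩

lemma Bad_least {r : ℕ} {W : Submodule ℚ ℂ} {g : ℂ} {b : ℕ} (hb : b ∈ Bad r W g) :
    ∃ T, Good T ∧ W ≤ T ∧ finrank ℚ T ≤ finrank ℚ W + r ∧ InK T (g + (Real.log b : ℂ)) ∧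
      ∀ S, Good S → W ≤ S → InK S (g + (Real.log b : ℂ)) → T ≤ S := by
  obtain ⟨S, h1, h2, h3, h4⟩ := hb
  obtain ⟨T, hT1, hT2, hT3, hT4⟩ := exists_least ⟨S, h1, h2, h4⟩
  have := h1.1
  exact ⟨T, hT1, hT2, (Submodule.finrank_mono (hT4 S h1 h2 h4)).trans h3, hT3, hT4⟩

lemma log_mul_cast {s t : ℕ} (hs : s ≠ 0) (ht : t ≠ 0) :
    ((Real.log ((s * t : ℕ) : ℝ) : ℝ) : ℂ) = (Real.log s : ℂ) + (Real.log t : ℂ) := by
  push_cast
  rw [Real.log_mul (by exact_mod_cast hs) (by exact_mod_cast ht)]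
  push_cast
  rfl

lemma exchange' {W T1 T4 : Submodule ℚ ℂ} {y1 y4 : ℂ} {r M : ℕ} (hWM : finrank ℚ W ≤ M)
    (hT1 : Good T1) (hT4 : Good T4) (hW1 : W ≤ T1) (hW4 : W ≤ T4)
    (hy1 : InK T1 y1) (hy4 : InK T4 y4) (hr1 : finrank ℚ T1 ≤ finrank ℚ W + (r + 1))
    (hr4 : finrank ℚ T4 ≤ finrank ℚ W + (r + 1)) (hne : T1 ≠ T4) :
    ∃ V, Good V ∧ W ≤ V ∧ finrank ℚ V ≤ 2 * (M + (r + 1)) ∧ InK V (y1 - y4) ∧
    (∀ S, Good S → W ≤ S → InK S (y1 - y4) → V ≤ S) ∧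
      ∃ S, Good S ∧ V ≤ S ∧ finrank ℚ S ≤ finrank ℚ V + r ∧ InK S y1 := by
  have hsup : Good (T1 ⊔ T4) := hT1.sup hT4
  have hsK : InK (T1 ⊔ T4) (y1 - y4) := (hy1.mono le_sup_left).sub (hy4.mono le_sup_right)
  obtain ⟨V, hV1, hV2, hV3, hV4⟩ := exists_least (W := W) (y := y1 - y4)
    ⟨T1 ⊔ T4, hsup, hW1.trans le_sup_left, hsK⟩
  have f1 := hT1.1
  have f4 := hT4.1
  have fs := hsup.1
  refine ⟨V, hV1, hV2, ?_, hV3, hV4, ?_⟩
  · have h1 := Submodule.finrank_mono (hV4 _ hsup (hW1.trans le_sup_left) hsK)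
    have h2 := Submodule.finrank_add_le_finrank_add_finrank T1 T4
    omega
  · obtain ⟨S, hS1, hS2, hS3, hS4⟩ := exchange hT1 hT4 hV1 hW1 hW4 hy1 hy4 hr1 hr4 hne hV3
    rw [sup_eq_right.mpr hV2] at hS2 hS3
    exact ⟨S, hS1, hS2, hS3, hS4⟩

theorem Q_succ (hzs : S_zs) (hcs : S_cs) (hsp : S_sp) {r : ℕ} (hQ : Q r) : Q (r + 1) := by
  intro M ε hε x₀
  set M1 : ℕ := 2 * (M + (r + 1)) with hM1
  have hε1 : 0 < ε ^ 4 / 3 := by positivity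
  obtain ⟨P1, hP1, hb1⟩ := hQ M1 (ε ^ 4 / 3) hε1 x₀
  obtain ⟨P2, hP2, hb2⟩ := hQ M1 (ε ^ 4 / 3) hε1 (max x₀ (P1.sup id))
  have h1 : ∀ p ∈ P1, p.Prime := fun p hp => (hP1 p hp).1
  have h2 : ∀ p ∈ P2, p.Prime := fun p hp => (hP2 p hp).1
  have hd : Disjoint P1 P2 := by
    rw [Finset.disjoint_left]
    intro p hp hp'
    have h3 : p ≤ P1.sup id := Finset.le_sup (f := id) hp
    have h4 := (hP2 p hp').2
    have h5 := le_max_right x₀ (P1.sup id)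
    omega
  refine ⟨P1 ∪ P2, ?_, fun W hW hWM g => ?_⟩
  · intro p hp
    rcases Finset.mem_union.mp hp with hp | hp
    · exact hP1 p hp
    · exact ⟨h2 p hp, lt_of_le_of_lt (le_max_left _ _) (hP2 p hp).2⟩
  · refine four_corners hzs hcs hsp h1 h2 hd hε1.le hε.le (by linarith)
      (fun s s' => BadL r W M1 ((Real.log s : ℂ) - (Real.log s' : ℂ)) (g + (Real.log s : ℂ)))
      (fun t t' => BadL r W M1 ((Real.log t : ℂ) - (Real.log t' : ℂ)) (g + (Real.log t : ℂ)))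
      (fun s t t' => BadL r W M1 (g + ((Real.log ((s * t : ℕ) : ℝ) : ℝ) : ℂ))
        (g + (Real.log t' : ℂ)))
      (fun s s' => BadL_sm h2 hε1.le hb2 _ _ _) (fun s s' => BadL_sm h1 hε1.le hb1 _ _ _)
      (fun s t t' => BadL_sm h1 hε1.le hb1 _ _ _) ?_
    intro s s' t t' hs hs' ht ht' c1 c4 _ c2
    have hs0 := Nat.ne_zero_of_mem_factoredNumbers hs
    have hs0' := Nat.ne_zero_of_mem_factoredNumbers hs'
    have ht0 := Nat.ne_zero_of_mem_factoredNumbers ht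
    have ht0' := Nat.ne_zero_of_mem_factoredNumbers ht'
    obtain ⟨T1, a1, a2, a3, a4, a5⟩ := Bad_least c1
    obtain ⟨T4, d1, d2, d3, d4, d5⟩ := Bad_least c4
    obtain ⟨T2, e1, e2, e3, e4, e5⟩ := Bad_least c2
    by_cases h14 : T1 = T4
    · by_cases h42 : T4 = T2
      · right; right
        refine ⟨T1, a1, a2, ?_, a4, a5, T1, a1, le_rfl, by omega, ?_⟩
        · omega
        · rw [h14, h42]
          rw [log_mul_cast hs0' ht0'] at e4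
          have : g + (Real.log t' : ℂ) + (Real.log s' : ℂ) =
            g + ((Real.log s' : ℂ) + (Real.log t' : ℂ)) := by ring
          rw [this]; exact e4
      · right; left
        obtain ⟨V, b1, b2, b3, b4, b5, S, b6, b7, b8, b9⟩ :=
          exchange' hWM d1 e1 d2 e2 d4 e4 d3 e3 h42
        have hz : g + ((Real.log ((s' * t : ℕ) : ℝ) : ℝ) : ℂ) -
            (g + ((Real.log ((s' * t' : ℕ) : ℝ) : ℝ) : ℂ)) =
            (Real.log t : ℂ) - (Real.log t' : ℂ) := by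
          rw [log_mul_cast hs0' ht0, log_mul_cast hs0' ht0']; ring
        rw [hz] at b4 b5
        refine ⟨V, b1, b2, b3, b4, b5, S, b6, b7, b8, ?_⟩
        rw [log_mul_cast hs0' ht0] at b9
        have : g + (Real.log t : ℂ) + (Real.log s' : ℂ) =
            g + ((Real.log s' : ℂ) + (Real.log t : ℂ)) := by ring
        rw [this]; exact b9
    · left
      obtain ⟨V, b1, b2, b3, b4, b5, S, b6, b7, b8, b9⟩ :=
        exchange' hWM a1 d1 a2 d2 a4 d4 a3 d3 h14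
      have hz : g + ((Real.log ((s * t : ℕ) : ℝ) : ℝ) : ℂ) -
          (g + ((Real.log ((s' * t : ℕ) : ℝ) : ℝ) : ℂ)) =
          (Real.log s : ℂ) - (Real.log s' : ℂ) := by
        rw [log_mul_cast hs0 ht0, log_mul_cast hs0' ht0]; ring
      rw [hz] at b4 b5
      refine ⟨V, b1, b2, b3, b4, b5, S, b6, b7, b8, ?_⟩
      rw [log_mul_cast hs0 ht0] at b9
      have : g + (Real.log s : ℂ) + (Real.log t : ℂ) =
          g + ((Real.log s : ℂ) + (Real.log t : ℂ)) := by ring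
      rw [this]; exact b9

end Pool.Agent.Lib.MP_c82530_nt.AA
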