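import Mathlib
import Pool.Agent.Lib.MP_c82530_nt.AA.LoSub
import Pool.Agent.Lib.MP_c82530_nt.AA.Step
import Pool.Agent.Lib.MP_c82530_nt.AA.Mt2
import Pool.Agent.Lib.MP_c82530_nt.Rank

set_option autoImplicit false

namespace Pool.Agent.Lib.MP_c82530_nt.AA

open Set Pool.Agent.Lib.MP_c82530_nt Module Filter Topology

lemma Sm.mono' {P : Finset ℕ} (hP : ∀ p ∈ P, p.Prime) {A B : Set ℕ} {ε δ : ℝ} (h : Sm P B ε)
    (hAB : ∀ b ∈ A, b ≠ 0 → b ∈ B) (hεδ : ε ≤ δ) : Sm P A δ := by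
  intro Y hY hYA
  exact (h Y hY (fun b hb => hAB b (hYA b hb) (Nat.ne_zero_of_mem_factoredNumbers (hY b hb)))).trans
    (mul_le_mul_of_nonneg_right hεδ (ZP_pos hP).le)

theorem Q_zero (hlo : S_lo) (hno : ∀ W, ¬ CoSmall W) : Q 0 := by
  obtain ⟨C, hC, h⟩ := lo_sub hlo
  intro M ε hε x₀
  obtain ⟨P, hP, hE⟩ := compactness' hno M ((C / ε) ^ 2) x₀
  refine ⟨P, hP, fun W hW hM g => ?_⟩
  have hPp : ∀ p ∈ P, p.Prime := fun p hp => (hP p hp).1
  have hE1 : (C / ε) ^ 2 ≤ EK (KK W) P := hE W hW hM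
  have hpos : 0 < (C / ε) ^ 2 := by positivity
  refine (h P hPp (KK W) g (hpos.trans_le hE1)).mono' hPp ?_ ?_
  · rintro b ⟨S, h1, h2, h3, h4⟩ _
    have := h1.1
    have h5 : W = S := Submodule.eq_of_le_of_finrank_le h2 h3
    change g + ((Real.log (b : ℝ) : ℝ) : ℂ) ∈ KK W
    rw [mem_KK, h5]
    exact h4
  · rw [div_le_iff₀ (Real.sqrt_pos.mpr (hpos.trans_le hE1))]
    have h1 : C / ε ≤ √(EK (KK W) P) := Real.le_sqrt_of_sq_le hE1
    calc C = ε * (C / ε) := by field_simp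
      _ ≤ ε * √(EK (KK W) P) := mul_le_mul_of_nonneg_left h1 hε.le

theorem Q_all (hlo : S_lo) (hzs : S_zs) (hcs : S_cs) (hsp : S_sp) (hno : ∀ W, ¬ CoSmall W)
    (r : ℕ) : Q r := by
  induction r with
  | zero => exact Q_zero hlo hno
  | succ r ih => exact Q_succ hzs hcs hsp ih

/-- logarithmic density zero -/
def LN (A : Set ℕ) : Prop :=
  Tendsto (fun N : ℕ => (∑ b ∈ Finset.Icc 1 N, A.indicator (fun b : ℕ => (b : ℝ)⁻¹) b) /
    Real.log N) atTop (𝓝 0)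

lemma sum_indicator_nonneg (A : Set ℕ) (N : ℕ) :
    0 ≤ ∑ b ∈ Finset.Icc 1 N, A.indicator (fun b : ℕ => (b : ℝ)⁻¹) b := by
  apply Finset.sum_nonneg
  intro b _
  apply Set.indicator_nonneg
  intro b _; positivity

lemma LN.mono {A B : Set ℕ} (h : LN B) (hAB : ∀ b ∈ A, b ≠ 0 → b ∈ B) : LN A := by
  apply squeeze_zero' _ _ h
  · filter_upwards with N
    exact div_nonneg (sum_indicator_nonneg A N) (Real.log_natCast_nonneg N)
  · filter_upwards with N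
    apply div_le_div_of_nonneg_right _ (Real.log_natCast_nonneg N)
    apply Finset.sum_le_sum
    intro b hb
    have hb0 : b ≠ 0 := by
      rw [Finset.mem_Icc] at hb; omega
    by_cases h1 : b ∈ A
    · rw [Set.indicator_of_mem h1, Set.indicator_of_mem (hAB b h1 hb0)]
    · rw [Set.indicator_of_notMem h1]
      apply Set.indicator_nonneg
      intro b _; positivity

lemma sum_indicator_eq (A : Set ℕ) (N : ℕ) [DecidablePred (· ∈ A)] :
    ∑ b ∈ Finset.Icc 1 N, A.indicator (fun b : ℕ => (b : ℝ)⁻¹) b =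
      ∑ b ∈ (Finset.Icc 1 N).filter (· ∈ A), (b : ℝ)⁻¹ := by
  rw [Finset.sum_filter]
  apply Finset.sum_congr rfl
  intro b _
  rw [Set.indicator_apply]

lemma mem_fac_primesBelow {b N : ℕ} (hb0 : b ≠ 0) (hb : b ≤ N) :
    b ∈ Nat.factoredNumbers (Nat.primesBelow (N + 1)) := by
  rw [Nat.mem_factoredNumbers]
  refine ⟨hb0, fun p hp => ?_⟩
  rw [Nat.mem_primesBelow]
  exact ⟨lt_of_le_of_lt (Nat.le_of_mem_primeFactorsList hp) (by omega),
    Nat.prime_of_mem_primeFactorsList hp⟩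

/-- from smallness on finite sets of primes to density zero -/
theorem LN_of_small (hmt : S_mt2) {A : Set ℕ}
    (h : ∀ ε : ℝ, 0 < ε → ∃ P : Finset ℕ, (∀ p ∈ P, p.Prime) ∧
      ∀ t : ℕ, t ≠ 0 → Sm P {s | s * t ∈ A} ε) : LN A := by
  classical
  obtain ⟨C, hC, hM⟩ := hmt
  rw [LN, Metric.tendsto_atTop]
  intro ε hε
  obtain ⟨P, hP, hPs⟩ := h (ε / (2 * C)) (by positivity)
  obtain ⟨N₀, hN₀⟩ := hM P hP
  refine ⟨max 2 N₀, fun N hN => ?_⟩
  have hN2 : 2 ≤ N := le_trans (le_max_left _ _) hN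
  have hNN : N₀ ≤ N := le_trans (le_max_right _ _) hN
  have hlog : 0 < Real.log N := Real.log_pos (by exact_mod_cast (by omega : 1 < N))
  have h1 := hN₀ N hNN A (ε / (2 * C)) (by positivity) hPs
  rw [Real.dist_eq, sub_zero, abs_of_nonneg (div_nonneg (sum_indicator_nonneg A N) hlog.le),
    div_lt_iff₀ hlog]
  refine h1.trans_lt ?_
  have : (ε / (2 * C)) * (C * Real.log N) = (ε / 2) * Real.log N := by field_simp
  rw [this]
  nlinarith

/-- sets with convergent sum of reciprocals have density zero -/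
theorem LN_of_bdd {A : Set ℕ} {C : ℝ}
    (h : ∀ Y : Finset ℕ, (∀ b ∈ Y, b ∈ A ∧ b ≠ 0) → ∑ b ∈ Y, (b : ℝ)⁻¹ ≤ C) : LN A := by
  classical
  have h1 : Tendsto (fun N : ℕ => C / Real.log N) atTop (𝓝 0) :=
    Tendsto.const_div_atTop (Real.tendsto_log_atTop.comp tendsto_natCast_atTop_atTop) C
  apply squeeze_zero' _ _ h1
  · filter_upwards with N
    exact div_nonneg (sum_indicator_nonneg A N) (Real.log_natCast_nonneg N)
  · filter_upwards with N
    apply div_le_div_of_nonneg_right _ (Real.log_natCast_nonneg N)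
    rw [sum_indicator_eq]
    apply h
    intro b hb
    rw [Finset.mem_filter, Finset.mem_Icc] at hb
    exact ⟨hb.2, by omega⟩

/-- **fixed space** -/
theorem LN_fixed (hlo : S_lo) (hmt : S_mt2) {S : Submodule ℚ ℂ}
    (hS : Good S) (hno : ¬ CoSmall S) (c : ℂ) :
    LN {b | InK S (c + ((Real.log (b : ℝ) : ℝ) : ℂ))} := by
  obtain ⟨C, hC, h⟩ := lo_sub hlo
  apply LN_of_small hmt
  intro ε hε
  obtain ⟨x, hx⟩ := exists_large hS hno ((C / ε) ^ 2)
  refine ⟨Nat.primesBelow x, prime_primesBelow, fun t ht => ?_⟩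
  have hE1 : (C / ε) ^ 2 ≤ EK (KK S) (Nat.primesBelow x) := hx x le_rfl
  have hpos : 0 < (C / ε) ^ 2 := by positivity
  refine (h _ prime_primesBelow (KK S) (c + ((Real.log (t : ℝ) : ℝ) : ℂ))
    (hpos.trans_le hE1)).mono' prime_primesBelow ?_ ?_
  · intro b hb hb0
    have h1 : InK S (c + ((Real.log ((b * t : ℕ) : ℝ) : ℝ) : ℂ)) := hb
    rw [log_mul_cast hb0 ht] at h1
    change c + ((Real.log (t : ℝ) : ℝ) : ℂ) + ((Real.log (b : ℝ) : ℝ) : ℂ) ∈ KK S
    rw [mem_KK]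
    have e : c + ((Real.log (t : ℝ) : ℝ) : ℂ) + ((Real.log (b : ℝ) : ℝ) : ℂ) =
      c + (((Real.log (b : ℝ) : ℝ) : ℂ) + ((Real.log (t : ℝ) : ℝ) : ℂ)) := by ring
    rw [e]; exact h1
  · rw [div_le_iff₀ (Real.sqrt_pos.mpr (hpos.trans_le hE1))]
    have h1 : C / ε ≤ √(EK (KK S) (Nat.primesBelow x)) := Real.le_sqrt_of_sq_le hE1
    calc C = ε * (C / ε) := by field_simp
      _ ≤ ε * √(EK (KK S) (Nat.primesBelow x)) := mul_le_mul_of_nonneg_left h1 hε.le

/-- **case A** -/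
theorem LN_bad (hlo : S_lo) (hzs : S_zs) (hcs : S_cs) (hsp : S_sp) (hmt : S_mt2)
    (hno : ∀ W, ¬ CoSmall W) (n : ℕ) (c : ℂ) : LN (Bad n ⊥ c) := by
  apply LN_of_small hmt
  intro ε hε
  obtain ⟨P, hP, hPs⟩ := Q_all hlo hzs hcs hsp hno n 0 ε hε 0
  refine ⟨P, fun p hp => (hP p hp).1, fun t ht => ?_⟩
  refine (hPs ⊥ Good.bot (by simp) (c + ((Real.log (t : ℝ) : ℝ) : ℂ))).mono'
    (fun p hp => (hP p hp).1) ?_ le_rfl
  intro b hb hb0
  have hb' : b * t ∈ Bad n ⊥ c := hb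
  obtain ⟨S, h1, h2, h3, h4⟩ := hb'
  refine ⟨S, h1, h2, h3, ?_⟩
  rw [log_mul_cast hb0 ht] at h4
  have e : c + ((Real.log (t : ℝ) : ℝ) : ℂ) + ((Real.log (b : ℝ) : ℝ) : ℂ) =
    c + (((Real.log (b : ℝ) : ℝ) : ℂ) + ((Real.log (t : ℝ) : ℝ) : ℂ)) := by ring
  rw [e]; exact h4

/-! ### case B -/

lemma exists_min_cosmall (h : ∃ W, CoSmall W) :
    ∃ V, CoSmall V ∧ ∀ W, CoSmall W → V ≤ W := by
  classical
  have hex : ∃ n : ℕ, ∃ W, CoSmall W ∧ finrank ℚ W = n := by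
    obtain ⟨W, hW⟩ := h
    exact ⟨_, W, hW, rfl⟩
  obtain ⟨V, hV, hn⟩ := Nat.find_spec hex
  refine ⟨V, hV, fun W hW => ?_⟩
  have h1 : Nat.find hex ≤ finrank ℚ (V ⊓ W : Submodule ℚ ℂ) :=
    Nat.find_min' hex ⟨V ⊓ W, hV.inf hW, rfl⟩
  rw [← hn] at h1
  have := hV.1.1
  have h3 : (V ⊓ W : Submodule ℚ ℂ) = V := Submodule.eq_of_le_of_finrank_le inf_le_left h1
  rw [← h3]
  exact inf_le_right

lemma CoSmall.map {V : Submodule ℚ ℂ} (h : CoSmall V) : CoSmall (V.map cjL) := by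
  obtain ⟨⟨hfd, halg⟩, C, hC⟩ := h
  refine ⟨⟨inferInstance, map_alg halg⟩, C, fun P hP => ?_⟩
  refine le_trans ?_ (hC P hP)
  unfold EW EK
  apply Finset.sum_le_sum_of_subset_of_nonneg
  · intro p hp
    rw [mem_Out] at hp ⊢
    refine ⟨hp.1, fun h1 => hp.2 ?_⟩
    rw [mem_KK] at h1 ⊢
    have h2 := conj_mem_map h1
    rwa [Complex.conj_ofReal] at h2
  · intro p _ _; positivity

lemma conj_stable {V : Submodule ℚ ℂ} (h : CoSmall V) (hmin : ∀ W, CoSmall W → V ≤ W) :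
    ∀ v ∈ V, (starRingEnd ℂ) v ∈ V := by
  intro v hv
  obtain ⟨w, hw, hwv⟩ := hmin _ h.map hv
  have : (starRingEnd ℂ) v = w := by
    rw [← hwv, cjL_apply, Complex.conj_conj]
  rw [this]; exact hw

lemma exp_log_alg {b : ℕ} (hb : b ≠ 0) :
    Complex.exp ((Real.log (b : ℝ) : ℝ) : ℂ) = (b : ℂ) := by
  rw [← Complex.ofReal_exp, Real.exp_log (by exact_mod_cast Nat.pos_of_ne_zero hb)]
  simp

/-- differences of logarithms of integers are transcendental -/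
lemma log_diff_alg {a b : ℕ} (ha : a ≠ 0) (hb : b ≠ 0)
    (h : IsAlgebraic ℚ (((Real.log (a : ℝ) : ℝ) : ℂ) - ((Real.log (b : ℝ) : ℝ) : ℂ))) : a = b := by
  by_contra hab
  have h0 : ((Real.log (a : ℝ) : ℝ) : ℂ) - ((Real.log (b : ℝ) : ℝ) : ℂ) ≠ 0 := by
    intro h1
    apply hab
    have h2 : ((Real.log (a : ℝ) : ℝ) : ℂ) = ((Real.log (b : ℝ) : ℝ) : ℂ) := sub_eq_zero.mp h1
    have h3 := congrArg Complex.exp h2
    rw [exp_log_alg ha, exp_log_alg hb] at h3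
    exact_mod_cast h3
  refine log_transcendental ?_ h0 h
  rw [Complex.exp_sub, exp_log_alg ha, exp_log_alg hb]
  exact (isAlgebraic_natCast a).mul (isAlgebraic_natCast b).inv

lemma InK_bot {z : ℂ} : InK ⊥ z ↔ IsAlgebraic ℚ z := by
  rw [InK, expSet_bot, mem_cl_empty]

lemma not_cosmall_bot : ¬ CoSmall ⊥ := by
  classical
  rintro ⟨_, C, hC⟩
  apply not_summable_one_div_on_primes
  apply summable_of_sum_le (c := C)
  · intro n
    apply Set.indicator_nonneg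
    intro n _; positivity
  · intro u
    have h1 : ∑ x ∈ u, ({p : ℕ | p.Prime}.indicator (fun n : ℕ => (1 : ℝ) / n)) x =
        EW ⊥ (u.filter Nat.Prime) := by
      unfold EW EK
      have h2 : Out (KK ⊥) (u.filter Nat.Prime) = u.filter Nat.Prime := by
        ext p
        rw [mem_Out]
        refine ⟨fun h => h.1, fun h => ⟨h, fun h3 => ?_⟩⟩
        rw [mem_KK, InK_bot] at h3
        have hp := (Finset.mem_filter.mp h).2
        have h4 := log_diff_alg (a := p) (b := 1) hp.ne_zero one_ne_zero (by simpa using h3)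
        exact hp.one_lt.ne' h4
      rw [h2, Finset.sum_filter]
      apply Finset.sum_congr rfl
      intro x _
      rw [Set.indicator_apply, one_div]
      rfl
    rw [h1]
    exact hC _ (fun p hp => (Finset.mem_filter.mp hp).2)

lemma sum_mem_KK {V : Submodule ℚ ℂ} {P : Finset ℕ}
    (hP : ∀ p ∈ P, ((Real.log (p : ℝ) : ℝ) : ℂ) ∈ KK V) {b : ℕ} (hb : b ∈ Nat.factoredNumbers P) :
    ((Real.log (b : ℝ) : ℝ) : ℂ) ∈ KK V := by
  rw [log_eq_sum hb]
  exact Submodule.sum_mem _ fun p hp => Submodule.smul_mem _ _ (hP p hp)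

/-- **case B**: the exceptional set for spaces disjoint from `V` -/
theorem bdd_disjoint (hzs : S_zs) (hsp : S_sp)
    (hze : ∀ P : Finset ℕ, (∀ p ∈ P, p.Prime) → ZP P ≤ Real.exp (2 * ∑ p ∈ P, (p : ℝ)⁻¹))
    {V : Submodule ℚ ℂ} (hV : CoSmall V) (c : ℂ) :
    ∃ C : ℝ, ∀ Y : Finset ℕ, (∀ b ∈ Y, (∃ S, Good S ∧ S ⊓ V = ⊥ ∧
      InK S (c + ((Real.log (b : ℝ) : ℝ) : ℂ))) ∧ b ≠ 0) → ∑ b ∈ Y, (b : ℝ)⁻¹ ≤ C := by
  classical
  obtain ⟨hVg, C, hC⟩ := hV
  refine ⟨Real.exp (2 * C), fun Y hY => ?_⟩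
  set P : Finset ℕ := Nat.primesBelow (Y.sup id + 1) with hP
  have hPp : ∀ p ∈ P, p.Prime := prime_primesBelow
  set P2 : Finset ℕ := Out (KK V) P with hP2
  have hP2s : P2 ⊆ P := fun p hp => (mem_Out.mp hp).1
  have hYP : ∀ b ∈ Y, b ∈ Nat.factoredNumbers ((P \ P2) ∪ P2) := by
    intro b hb
    rw [Finset.sdiff_union_of_subset hP2s]
    exact mem_fac_primesBelow (hY b hb).2 (Finset.le_sup (f := id) hb)
  have h1p : ∀ p ∈ P \ P2, p.Prime := fun p hp => hPp p (Finset.mem_sdiff.mp hp).1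
  have h2p : ∀ p ∈ P2, p.Prime := fun p hp => hPp p (hP2s hp)
  have h1V : ∀ p ∈ P \ P2, ((Real.log (p : ℝ) : ℝ) : ℂ) ∈ KK V := by
    intro p hp
    rw [Finset.mem_sdiff, hP2, mem_Out] at hp
    by_contra h
    exact hp.2 ⟨hp.1, h⟩
  choose! s hs t ht hst using hsp (P \ P2) P2 h1p h2p Finset.sdiff_disjoint
  have hinj : Set.InjOn t (Y : Set ℕ) := by
    intro b hb b' hb' htt
    have e1 := hst b (hYP b hb)
    have e2 := hst b' (hYP b' hb')
    have hs0 := Nat.ne_zero_of_mem_factoredNumbers (hs b (hYP b hb))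
    have hs0' := Nat.ne_zero_of_mem_factoredNumbers (hs b' (hYP b' hb'))
    have ht0 := Nat.ne_zero_of_mem_factoredNumbers (ht b (hYP b hb))
    have ht0' := Nat.ne_zero_of_mem_factoredNumbers (ht b' (hYP b' hb'))
    obtain ⟨S, hS1, hS2, hS3⟩ := (hY b hb).1
    obtain ⟨S', hS1', hS2', hS3'⟩ := (hY b' hb').1
    have hdiff : (c + ((Real.log (b : ℝ) : ℝ) : ℂ)) - (c + ((Real.log (b' : ℝ) : ℝ) : ℂ)) =
        ((Real.log (s b : ℝ) : ℝ) : ℂ) - ((Real.log (s b' : ℝ) : ℝ) : ℂ) := by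
      have f1 : ((Real.log (b : ℝ) : ℝ) : ℂ) = (Real.log (s b) : ℂ) + (Real.log (t b) : ℂ) := by
        rw [← log_mul_cast hs0 ht0, ← e1]
      have f2 : ((Real.log (b' : ℝ) : ℝ) : ℂ) =
          (Real.log (s b') : ℂ) + (Real.log (t b') : ℂ) := by
        rw [← log_mul_cast hs0' ht0', ← e2]
      rw [f1, f2, htt]
      ring
    have hdV : InK V ((c + ((Real.log (b : ℝ) : ℝ) : ℂ)) -
        (c + ((Real.log (b' : ℝ) : ℝ) : ℂ))) := by
      rw [hdiff, ← mem_KK]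
      exact Submodule.sub_mem _ (sum_mem_KK h1V (hs b (hYP b hb)))
        (sum_mem_KK h1V (hs b' (hYP b' hb')))
    obtain ⟨T, hT1, -, hT3, hT4⟩ := exists_least (W := ⊥) ⟨S, hS1, bot_le, hS3⟩
    obtain ⟨T', hT1', -, hT3', hT4'⟩ := exists_least (W := ⊥) ⟨S', hS1', bot_le, hS3'⟩
    have hTV : T ⊓ V = ⊥ := by
      rw [eq_bot_iff, ← hS2]
      exact inf_le_inf_right V (hT4 S hS1 bot_le hS3)
    have hTV' : T' ⊓ V = ⊥ := by
      rw [eq_bot_iff, ← hS2']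
      exact inf_le_inf_right V (hT4' S' hS1' bot_le hS3')
    -- the two least spaces agree
    have key : ∀ A B : Submodule ℚ ℂ, ∀ y y' : ℂ, Good A → Good B → A ⊓ V = ⊥ →
        InK A y → InK B y' → InK V (y - y') →
        (∀ S, Good S → ⊥ ≤ S → InK S y → A ≤ S) → A ≤ B := by
      intro A B y y' hA hB hAV hy hy' hyy hleast
      have fA := hA.1
      have fB := hB.1
      have hG : Good (V ⊔ (A ⊓ B)) := hVg.sup hA.inf
      have fG := hG.1
      have h1 : InK (V ⊔ (A ⊓ B)) y :=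
        ral hA.2 hB.2 hG.2 le_sup_right hy hy' (InK.mono hyy le_sup_left)
      have h2 : A ≤ V ⊔ (A ⊓ B) := hleast _ hG bot_le h1
      intro a ha
      obtain ⟨v, hv, r, hr, hvr⟩ := Submodule.mem_sup.mp (h2 ha)
      have h3 : v ∈ A := by
        have : v = a - r := by rw [← hvr]; ring
        rw [this]; exact A.sub_mem ha hr.1
      have h4 : v ∈ A ⊓ V := ⟨h3, hv⟩
      rw [hAV, Submodule.mem_bot] at h4
      rw [← hvr, h4, zero_add]
      exact hr.2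
    have hTT : T = T' := by
      apply le_antisymm
      · exact key T T' _ _ hT1 hT1' hTV hT3 hT3' hdV hT4
      · apply key T' T _ _ hT1' hT1 hTV' hT3' hT3 _ hT4'
        rw [← neg_sub, InK]
        exact neg_mem_cl hdV
    have hdT : InK T ((c + ((Real.log (b : ℝ) : ℝ) : ℂ)) -
        (c + ((Real.log (b' : ℝ) : ℝ) : ℂ))) := by
      apply InK.sub hT3
      rw [hTT]; exact hT3'
    have hbot := InK.inf hT1 hVg hdT hdV
    rw [hTV, InK_bot, hdiff] at hbot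
    have := log_diff_alg hs0 hs0' hbot
    rw [e1, e2, this, htt]
  calc ∑ b ∈ Y, (b : ℝ)⁻¹ ≤ ∑ b ∈ Y, ((t b : ℕ) : ℝ)⁻¹ := by
        apply Finset.sum_le_sum
        intro b hb
        have e1 := hst b (hYP b hb)
        have hs0 := Nat.ne_zero_of_mem_factoredNumbers (hs b (hYP b hb))
        have ht0 := Nat.ne_zero_of_mem_factoredNumbers (ht b (hYP b hb))
        apply inv_anti₀
        · exact_mod_cast Nat.pos_of_ne_zero ht0
        · have : t b ≤ b := by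
            conv_rhs => rw [e1]
            exact Nat.le_mul_of_pos_left _ (Nat.pos_of_ne_zero hs0)
          exact_mod_cast this
    _ = ∑ u ∈ Y.image t, (u : ℝ)⁻¹ := by rw [Finset.sum_image hinj]
    _ ≤ ZP P2 := by
        apply hzs P2 h2p
        intro u hu
        obtain ⟨b, hb, rfl⟩ := Finset.mem_image.mp hu
        exact ht b (hYP b hb)
    _ ≤ Real.exp (2 * ∑ p ∈ P2, (p : ℝ)⁻¹) := hze P2 h2p
    _ ≤ Real.exp (2 * C) := by
        rw [Real.exp_le_exp]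
        have : ∑ p ∈ P2, (p : ℝ)⁻¹ ≤ C := hC P hPp
        linarith

end Pool.Agent.Lib.MP_c82530_nt.AA
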