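import Mathlib
import Pool.Agent.Lib.MP_c82530_nt.AA.Dens

set_option autoImplicit false

namespace Pool.Agent.Lib.MP_c82530_nt.AA

open Set Pool.Agent.Lib.MP_c82530_nt Module Filter Topology

/-- the numbers `exp (α i)`, `w` are algebraically independent -/
abbrev AI {n : ℕ} (α : Fin n → ℂ) (w : ℂ) : Prop :=
  AlgebraicIndependent (integralClosure ℚ ℂ)
    (Sum.elim (fun i : Fin n => Complex.exp (α i)) (fun _ : Fin 1 => w))

lemma good_span {n : ℕ} {α : Fin n → ℂ} (hα : ∀ i, IsAlgebraic ℚ (α i)) :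
    Good (Submodule.span ℚ (range α)) :=
  ⟨FiniteDimensional.span_of_finite ℚ (Set.finite_range α), span_alg hα⟩

lemma inK_of_dep {n : ℕ} {α : Fin n → ℂ} (hα : ∀ i, IsAlgebraic ℚ (α i))
    (hlin : LinearIndependent ℚ α) {w : ℂ} (h : ¬ AI α w) :
    InK (Submodule.span ℚ (range α)) w := by
  by_contra h1
  exact h ((indep_iff hα hlin).mpr h1)

/-- **main theorem** (with the pieces as hypotheses) -/
theorem main (hlo : S_lo) (hzs : S_zs) (hcs : S_cs) (hsp : S_sp) (hmt : S_mt2)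
    (hze : ∀ P : Finset ℕ, (∀ p ∈ P, p.Prime) → ZP P ≤ Real.exp (2 * ∑ p ∈ P, (p : ℝ)⁻¹)) :
    ∃ V : Submodule ℚ ℂ, FiniteDimensional ℚ V ∧ (∀ v ∈ V, IsAlgebraic ℚ v) ∧
      (∀ v ∈ V, (starRingEnd ℂ) v ∈ V) ∧
      (∀ (n : ℕ) (c : ℂ), LN {b : ℕ | ∃ α : Fin n → ℂ, (∀ i, IsAlgebraic ℚ (α i)) ∧
        LinearIndependent ℚ α ∧ Disjoint (Submodule.span ℚ (range α)) V ∧
        ¬ AI α (c + ((Real.log (b : ℝ) : ℝ) : ℂ))}) ∧
      (∀ (n : ℕ) (c : ℂ) (α : Fin n → ℂ), (∀ i, IsAlgebraic ℚ (α i)) → LinearIndependent ℚ α →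
        (V = ⊥ ∨ ¬ V ≤ Submodule.span ℚ (range α)) →
        LN {b : ℕ | ¬ AI α (c + ((Real.log (b : ℝ) : ℝ) : ℂ))}) ∧
      (V ≠ ⊥ → ∀ c : ℂ, Summable ({b : ℕ | ∃ (n : ℕ) (α : Fin n → ℂ), (∀ i, IsAlgebraic ℚ (α i)) ∧
        LinearIndependent ℚ α ∧ Disjoint (Submodule.span ℚ (range α)) V ∧
        ¬ AI α (c + ((Real.log (b : ℝ) : ℝ) : ℂ))}.indicator (fun b : ℕ => (b : ℝ)⁻¹))) := by
  classical
  by_cases hno : ∃ W, CoSmall W
  · obtain ⟨V, hV, hmin⟩ := exists_min_cosmall hno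
    have hVne : V ≠ ⊥ := by
      rintro rfl
      exact not_cosmall_bot hV
    have hbd := bdd_disjoint hzs hsp hze hV
    refine ⟨V, hV.1.1, hV.1.2, conj_stable hV hmin, ?_, ?_, ?_⟩
    · intro n c
      obtain ⟨C, hC⟩ := hbd c
      apply LN_of_bdd (C := C)
      intro Y hY
      apply hC
      intro b hb
      obtain ⟨⟨α, hα, hlin, hdis, hAI⟩, hb0⟩ := hY b hb
      exact ⟨⟨_, good_span hα, hdis.eq_bot, inK_of_dep hα hlin hAI⟩, hb0⟩
    · rintro n c α hα hlin (h | h)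
      · exact absurd h hVne
      · refine (LN_fixed hlo hmt (good_span hα)
          (fun hcs' => h (hmin _ hcs')) c).mono ?_
        intro b hb _
        exact inK_of_dep hα hlin hb
    · intro _ c
      obtain ⟨C, hC⟩ := hbd c
      apply summable_of_sum_le (c := C)
      · intro n
        apply Set.indicator_nonneg
        intro n _; positivity
      · intro u
        have h1 : ∑ b ∈ u, ({b : ℕ | ∃ (n : ℕ) (α : Fin n → ℂ), (∀ i, IsAlgebraic ℚ (α i)) ∧
            LinearIndependent ℚ α ∧ Disjoint (Submodule.span ℚ (range α)) V ∧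
            ¬ AI α (c + ((Real.log (b : ℝ) : ℝ) : ℂ))}.indicator (fun b : ℕ => (b : ℝ)⁻¹)) b =
            ∑ b ∈ (u.filter (fun b => b ∈ {b : ℕ | ∃ (n : ℕ) (α : Fin n → ℂ),
              (∀ i, IsAlgebraic ℚ (α i)) ∧
            LinearIndependent ℚ α ∧ Disjoint (Submodule.span ℚ (range α)) V ∧
            ¬ AI α (c + ((Real.log (b : ℝ) : ℝ) : ℂ))})).filter (fun b => b ≠ 0),
              (b : ℝ)⁻¹ := by
          rw [Finset.sum_filter, Finset.sum_filter]
          apply Finset.sum_congr rfl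
          intro b _
          rw [Set.indicator_apply]
          by_cases hb0 : b = 0
          · simp [hb0]
          · simp [hb0]
        rw [h1]
        apply hC
        intro b hb
        rw [Finset.mem_filter, Finset.mem_filter] at hb
        obtain ⟨⟨_, n, α, hα, hlin, hdis, hAI⟩, hb0⟩ := hb
        exact ⟨⟨_, good_span hα, hdis.eq_bot, inK_of_dep hα hlin hAI⟩, hb0⟩
  · push Not at hno
    have hA : ∀ (n : ℕ) (c : ℂ), LN {b : ℕ | ∃ α : Fin n → ℂ, (∀ i, IsAlgebraic ℚ (α i)) ∧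
        LinearIndependent ℚ α ∧ ¬ AI α (c + ((Real.log (b : ℝ) : ℝ) : ℂ))} := by
      intro n c
      apply (LN_bad hlo hzs hcs hsp hmt hno n c).mono
      rintro b ⟨α, hα, hlin, hAI⟩ _
      refine ⟨_, good_span hα, bot_le, ?_, inK_of_dep hα hlin hAI⟩
      have h1 : finrank ℚ (Submodule.span ℚ (range α)) = Fintype.card (Fin n) :=
        finrank_span_eq_card hlin
      rw [h1, Fintype.card_fin]
      omega
    refine ⟨⊥, Good.bot.1, Good.bot.2, ?_, ?_, ?_, ?_⟩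
    · intro v hv
      rw [Submodule.mem_bot] at hv ⊢
      rw [hv, map_zero]
    · intro n c
      apply (hA n c).mono
      rintro b ⟨α, hα, hlin, _, hAI⟩ _
      exact ⟨α, hα, hlin, hAI⟩
    · intro n c α hα hlin _
      apply (hA n c).mono
      intro b hb _
      exact ⟨α, hα, hlin, hb⟩
    · intro h
      exact absurd rfl h

end Pool.Agent.Lib.MP_c82530_nt.AA
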