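import Mathlib
import Pool.Agent.Lib.MP_c82530_nt.AA.Stm

set_option autoImplicit false

namespace Pool.Agent.Lib.MP_c82530_nt.AA

open scoped BigOperators

private theorem cs_w {ι : Type} (X : Finset ι) (w g : ι → ℝ) (hw : ∀ s ∈ X, 0 ≤ w s) :
    (∑ s ∈ X, w s * g s) ^ 2 ≤ (∑ s ∈ X, w s) * ∑ s ∈ X, w s * g s ^ 2 := by
  refine Finset.sum_sq_le_sum_mul_sum_of_sq_le_mul X hw (fun s hs => ?_) fun s _ => ?_
  · exact mul_nonneg (hw s hs) (sq_nonneg _)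
  · exact le_of_eq (by ring)

private theorem cs_F (X Y : Finset ℕ) (w v : ℕ → ℝ) (hw : ∀ s ∈ X, 0 ≤ w s)
    (hv : ∀ t ∈ Y, 0 ≤ v t) (F : ℕ → ℕ → ℝ) :
    (∑ s ∈ X, ∑ t ∈ Y, F s t * (w s * v t)) ^ 4 ≤
    (∑ s ∈ X, w s) ^ 2 * (∑ t ∈ Y, v t) ^ 2 *
      ∑ s ∈ X, ∑ s' ∈ X, ∑ t ∈ Y, ∑ t' ∈ Y,
        F s t * F s' t * F s t' * F s' t' * (w s * w s' * v t * v t') := by
  set A : ℝ := ∑ s ∈ X, w s * ∑ t ∈ Y, F s t * v t with hA
  set B : ℝ := ∑ s ∈ X, w s * (∑ t ∈ Y, F s t * v t) ^ 2 with hB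
  have h1 : ∑ s ∈ X, ∑ t ∈ Y, F s t * (w s * v t) = A := by
    rw [hA]
    refine Finset.sum_congr rfl fun s _ => ?_
    rw [Finset.mul_sum]
    refine Finset.sum_congr rfl fun t _ => ?_
    ring
  have h2 : A ^ 2 ≤ (∑ s ∈ X, w s) * B := cs_w X w _ hw
  have h3 : B = ∑ p ∈ Y ×ˢ Y, v p.1 * v p.2 * ∑ s ∈ X, w s * (F s p.1 * F s p.2) := by
    rw [hB, Finset.sum_product]
    have h4 : ∀ s ∈ X, w s * (∑ t ∈ Y, F s t * v t) ^ 2 =
        ∑ t ∈ Y, ∑ t' ∈ Y, v t * v t' * (w s * (F s t * F s t')) := by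
      intro s _
      rw [sq, Finset.sum_mul_sum, Finset.mul_sum]
      refine Finset.sum_congr rfl fun t _ => ?_
      rw [Finset.mul_sum]
      refine Finset.sum_congr rfl fun t' _ => ?_
      ring
    rw [Finset.sum_congr rfl h4, Finset.sum_comm]
    refine Finset.sum_congr rfl fun t _ => ?_
    rw [Finset.sum_comm]
    refine Finset.sum_congr rfl fun t' _ => ?_
    rw [Finset.mul_sum]
  have h5 := cs_w (Y ×ˢ Y) (fun p => v p.1 * v p.2)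
    (fun p => ∑ s ∈ X, w s * (F s p.1 * F s p.2)) (fun p hp => by
      rw [Finset.mem_product] at hp
      exact mul_nonneg (hv _ hp.1) (hv _ hp.2))
  rw [← h3] at h5
  have h6 : ∑ p ∈ Y ×ˢ Y, v p.1 * v p.2 = (∑ t ∈ Y, v t) ^ 2 := by
    rw [sq, Finset.sum_mul_sum, Finset.sum_product]
  have h7 : ∑ p ∈ Y ×ˢ Y, v p.1 * v p.2 * (∑ s ∈ X, w s * (F s p.1 * F s p.2)) ^ 2 =
      ∑ s ∈ X, ∑ s' ∈ X, ∑ t ∈ Y, ∑ t' ∈ Y,
        F s t * F s' t * F s t' * F s' t' * (w s * w s' * v t * v t') := by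
    rw [Finset.sum_product]
    have h8 : ∀ t ∈ Y, ∀ t' ∈ Y, v t * v t' * (∑ s ∈ X, w s * (F s t * F s t')) ^ 2 =
        ∑ s ∈ X, ∑ s' ∈ X, F s t * F s' t * F s t' * F s' t' * (w s * w s' * v t * v t') := by
      intro t _ t' _
      rw [sq, Finset.sum_mul_sum, Finset.mul_sum]
      refine Finset.sum_congr rfl fun s _ => ?_
      rw [Finset.mul_sum]
      refine Finset.sum_congr rfl fun s' _ => ?_
      ring
    rw [Finset.sum_congr rfl fun t ht => Finset.sum_congr rfl fun t' ht' => h8 t ht t' ht']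
    calc ∑ t ∈ Y, ∑ t' ∈ Y, ∑ s ∈ X, ∑ s' ∈ X,
          F s t * F s' t * F s t' * F s' t' * (w s * w s' * v t * v t')
        = ∑ t ∈ Y, ∑ s ∈ X, ∑ t' ∈ Y, ∑ s' ∈ X,
          F s t * F s' t * F s t' * F s' t' * (w s * w s' * v t * v t') :=
          Finset.sum_congr rfl fun t _ => Finset.sum_comm
      _ = ∑ s ∈ X, ∑ t ∈ Y, ∑ t' ∈ Y, ∑ s' ∈ X,
          F s t * F s' t * F s t' * F s' t' * (w s * w s' * v t * v t') := Finset.sum_comm
      _ = ∑ s ∈ X, ∑ t ∈ Y, ∑ s' ∈ X, ∑ t' ∈ Y,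
          F s t * F s' t * F s t' * F s' t' * (w s * w s' * v t * v t') :=
          Finset.sum_congr rfl fun s _ => Finset.sum_congr rfl fun t _ => Finset.sum_comm
      _ = _ := Finset.sum_congr rfl fun s _ => Finset.sum_comm
  rw [h6, h7] at h5
  rw [h1]
  have h9 : (A ^ 2) ^ 2 ≤ ((∑ s ∈ X, w s) * B) ^ 2 := pow_le_pow_left₀ (sq_nonneg _) h2 2
  calc A ^ 4 = (A ^ 2) ^ 2 := by ring
    _ ≤ ((∑ s ∈ X, w s) * B) ^ 2 := h9
    _ = (∑ s ∈ X, w s) ^ 2 * B ^ 2 := by ring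
    _ ≤ (∑ s ∈ X, w s) ^ 2 * ((∑ t ∈ Y, v t) ^ 2 * _) :=
        mul_le_mul_of_nonneg_left h5 (sq_nonneg _)
    _ = _ := by ring

theorem p_cs : S_cs := by
  intro X Y w v hw hv f _
  have h := cs_F X Y w v hw hv (fun s t => if f s t then (1 : ℝ) else 0)
  have h1 : ∑ s ∈ X, ∑ t ∈ Y, (if f s t then w s * v t else 0) =
      ∑ s ∈ X, ∑ t ∈ Y, (if f s t then (1 : ℝ) else 0) * (w s * v t) := by
    refine Finset.sum_congr rfl fun s _ => Finset.sum_congr rfl fun t _ => ?_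
    split_ifs <;> ring
  have h2 : ∑ s ∈ X, ∑ s' ∈ X, ∑ t ∈ Y, ∑ t' ∈ Y,
      (if f s t ∧ f s' t ∧ f s t' ∧ f s' t' then w s * w s' * v t * v t' else 0) =
      ∑ s ∈ X, ∑ s' ∈ X, ∑ t ∈ Y, ∑ t' ∈ Y,
        (if f s t then (1 : ℝ) else 0) * (if f s' t then (1 : ℝ) else 0) *
          (if f s t' then (1 : ℝ) else 0) * (if f s' t' then (1 : ℝ) else 0) *
            (w s * w s' * v t * v t') := by
    refine Finset.sum_congr rfl fun s _ => Finset.sum_congr rfl fun s' _ =>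
      Finset.sum_congr rfl fun t _ => Finset.sum_congr rfl fun t' _ => ?_
    by_cases ha : f s t
    · by_cases hb : f s' t
      · by_cases hc : f s t'
        · by_cases hd : f s' t'
          · simp [ha, hb, hc, hd]
          · simp [hd]
        · simp [hc]
      · simp [hb]
    · simp [ha]
  rw [h1, h2]
  exact h

end Pool.Agent.Lib.MP_c82530_nt.AA
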