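import Mathlib
import Pool.Agent.Lib.MP_c82530_nt.AA.Stm

set_option autoImplicit false

namespace Pool.Agent.Lib.MP_c82530_nt.AA

open scoped BigOperators Real
open MeasureTheory

/-- the additive function -/
private noncomputable def loF (P : Finset ℕ) (a : ℕ → ℤ) (b : ℕ) : ℤ :=
  ∑ p ∈ P, (b.factorization p : ℤ) * a p

private theorem loF_mul (P : Finset ℕ) (a : ℕ → ℤ) {m n : ℕ} (hm : m ≠ 0) (hn : n ≠ 0) :
    loF P a (m * n) = loF P a m + loF P a n := by
  unfold loF
  rw [← Finset.sum_add_distrib]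
  refine Finset.sum_congr rfl fun p _ => ?_
  rw [Nat.factorization_mul hm hn, Finsupp.add_apply]
  push_cast
  ring

private theorem loF_one (P : Finset ℕ) (a : ℕ → ℤ) : loF P a 1 = 0 := by
  unfold loF
  simp

private theorem loF_prime (P : Finset ℕ) (hP : ∀ p ∈ P, p.Prime) (a : ℕ → ℤ) {p : ℕ}
    (hp : p ∈ P) : loF P a p = a p := by
  unfold loF
  rw [Finset.sum_eq_single p]
  · rw [(hP p hp).factorization_self]
    simp
  · intro q _ hq
    rw [(hP p hp).factorization, Finsupp.single_eq_of_ne hq]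
    simp
  · intro h
    exact absurd hp h

/-- the multiplicative function -/
private noncomputable def loM (P : Finset ℕ) (a : ℕ → ℤ) (t : ℝ) : ℕ →* ℂ where
  toFun n := (n : ℂ)⁻¹ * Complex.exp (2 * π * Complex.I * (loF P a n : ℂ) * (t : ℂ))
  map_one' := by
    rw [loF_one]
    simp
  map_mul' m n := by
    rcases eq_or_ne m 0 with hm | hm
    · subst hm
      simp
    rcases eq_or_ne n 0 with hn | hn
    · subst hn
      simp
    rw [loF_mul P a hm hn, Nat.cast_mul, mul_inv]
    have : 2 * (π : ℂ) * Complex.I * ((loF P a m + loF P a n : ℤ) : ℂ) * (t : ℂ) =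
        2 * π * Complex.I * (loF P a m : ℂ) * t + 2 * π * Complex.I * (loF P a n : ℂ) * t := by
      push_cast
      ring
    rw [this, Complex.exp_add]
    ring

private theorem loM_apply (P : Finset ℕ) (a : ℕ → ℤ) (t : ℝ) (n : ℕ) :
    loM P a t n = (n : ℂ)⁻¹ * Complex.exp (2 * π * Complex.I * (loF P a n : ℂ) * (t : ℂ)) := rfl

private theorem lo_norm_exp (x : ℤ) (t : ℝ) :
    ‖Complex.exp (2 * π * Complex.I * (x : ℂ) * (t : ℂ))‖ = 1 := by
  have : 2 * (π : ℂ) * Complex.I * (x : ℂ) * (t : ℂ) = ((2 * π * x * t : ℝ) : ℂ) * Complex.I := by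
    push_cast
    ring
  rw [this, Complex.norm_exp_ofReal_mul_I]

private theorem loM_norm (P : Finset ℕ) (a : ℕ → ℤ) (t : ℝ) (n : ℕ) :
    ‖loM P a t n‖ = (n : ℝ)⁻¹ := by
  rw [loM_apply, norm_mul, lo_norm_exp, mul_one, norm_inv, Complex.norm_natCast]

private theorem lo_euler (P : Finset ℕ) (hP : ∀ p ∈ P, p.Prime) (a : ℕ → ℤ) (t : ℝ) :
    Summable (fun m : Nat.factoredNumbers P => ‖loM P a t m‖) ∧
    HasSum (fun m : Nat.factoredNumbers P => loM P a t m) (∏ p ∈ P, (1 - loM P a t p)⁻¹) := by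
  have h := EulerProduct.summable_and_hasSum_factoredNumbers_prod_filter_prime_geometric
    (f := loM P a t) (fun {p} hp => by
      rw [loM_norm]
      exact inv_lt_one_of_one_lt₀ (by exact_mod_cast hp.one_lt)) P
  rwa [Finset.filter_true_of_mem hP] at h

/-- orthogonality -/
private theorem lo_orth (x : ℤ) :
    ∫ t in (0:ℝ)..1, Complex.exp (2 * π * Complex.I * (x : ℂ) * (t : ℂ)) =
      if x = 0 then 1 else 0 := by
  rcases eq_or_ne x 0 with hx | hx
  · subst hx
    simp
  · rw [if_neg hx]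
    have hc : (2 * (π : ℂ) * Complex.I * (x : ℂ)) ≠ 0 := by
      refine mul_ne_zero (mul_ne_zero (mul_ne_zero two_ne_zero ?_) Complex.I_ne_zero) ?_
      · exact_mod_cast Real.pi_ne_zero
      · exact_mod_cast hx
    rw [integral_exp_mul_complex hc]
    have h1 : Complex.exp (2 * (π : ℂ) * Complex.I * (x : ℂ) * ((1 : ℝ) : ℂ)) = 1 := by
      rw [Complex.exp_eq_one_iff]
      exact ⟨x, by push_cast; ring⟩
    rw [h1]
    simp

/-- the main inequality between the sum and the integral -/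
private theorem lo_int (P : Finset ℕ) (hP : ∀ p ∈ P, p.Prime) (a : ℕ → ℤ) (k : ℤ) (Y : Finset ℕ)
    (hY : ∀ b ∈ Y, b ∈ Nat.factoredNumbers P) (hk : ∀ b ∈ Y, loF P a b = k) :
    ∑ b ∈ Y, (b : ℝ)⁻¹ ≤ ∫ t in (0:ℝ)..1, ‖∏ p ∈ P, (1 - loM P a t p)⁻¹‖ := by
  have hcont : ∀ n : ℕ, Continuous (fun t : ℝ => loM P a t n) := by
    intro n
    simp only [loM_apply]
    fun_prop
  have hs : HasSum (fun m : Nat.factoredNumbers P =>
      ∫ t in (0:ℝ)..1, Complex.exp (2 * π * Complex.I * ((-k : ℤ) : ℂ) * (t : ℂ)) * loM P a t m)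
      (∫ t in (0:ℝ)..1, Complex.exp (2 * π * Complex.I * ((-k : ℤ) : ℂ) * (t : ℂ)) *
        ∏ p ∈ P, (1 - loM P a t p)⁻¹) := by
    refine intervalIntegral.hasSum_integral_of_dominated_convergence
      (fun m _ => ((m : ℕ) : ℝ)⁻¹) ?_ ?_ ?_ ?_ ?_
    · intro m
      refine Continuous.aestronglyMeasurable ?_
      have := hcont m
      fun_prop
    · intro m
      refine Filter.Eventually.of_forall fun t _ => ?_
      rw [norm_mul, lo_norm_exp, one_mul, loM_norm]
    · refine Filter.Eventually.of_forall fun t _ => ?_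
      have := (lo_euler P hP a t).1
      simpa only [loM_norm] using this
    · exact intervalIntegrable_const
    · refine Filter.Eventually.of_forall fun t _ => ?_
      exact ((lo_euler P hP a t).2).mul_left _
  have hterm : ∀ m : Nat.factoredNumbers P,
      ∫ t in (0:ℝ)..1, Complex.exp (2 * π * Complex.I * ((-k : ℤ) : ℂ) * (t : ℂ)) * loM P a t m =
      (((if loF P a m = k then ((m : ℕ) : ℝ)⁻¹ else 0 : ℝ)) : ℂ) := by
    intro m
    have h1 : ∀ t : ℝ, Complex.exp (2 * π * Complex.I * ((-k : ℤ) : ℂ) * (t : ℂ)) * loM P a t m =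
        ((m : ℕ) : ℂ)⁻¹ *
          Complex.exp (2 * π * Complex.I * ((loF P a m - k : ℤ) : ℂ) * (t : ℂ)) := by
      intro t
      rw [loM_apply]
      rw [mul_left_comm, ← Complex.exp_add]
      congr 2
      push_cast
      ring
    simp only [h1]
    rw [intervalIntegral.integral_const_mul, lo_orth]
    by_cases h : loF P a m = k
    · rw [if_pos (by omega), if_pos h]
      push_cast
      ring
    · rw [if_neg (by omega), if_neg h, mul_zero, Complex.ofReal_zero]
  simp only [hterm] at hs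
  have hs2 := Complex.hasSum_re hs
  simp only [Complex.ofReal_re] at hs2
  set I : ℂ := ∫ t in (0:ℝ)..1, Complex.exp (2 * π * Complex.I * ((-k : ℤ) : ℂ) * (t : ℂ)) *
        ∏ p ∈ P, (1 - loM P a t p)⁻¹ with hI
  have h2 : ∑ b ∈ Y, (b : ℝ)⁻¹ ≤ I.re := by
    have h3 : ∑ b ∈ Y, (b : ℝ)⁻¹ = ∑ m ∈ Y.attach.map
        ⟨fun b : Y => (⟨b.1, hY b.1 b.2⟩ : Nat.factoredNumbers P), fun x y h =>
          Subtype.ext (congrArg (fun z : Nat.factoredNumbers P => (z : ℕ)) h)⟩, (if loF P a m = k then ((m : ℕ) : ℝ)⁻¹ else 0) := by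
      rw [Finset.sum_map, ← Finset.sum_attach Y]
      refine Finset.sum_congr rfl fun b _ => ?_
      exact (if_pos (hk b.1 b.2)).symm
    rw [h3]
    refine sum_le_hasSum _ (fun m _ => ?_) hs2
    split_ifs
    · positivity
    · exact le_rfl
  refine h2.trans ?_
  refine (Complex.re_le_norm I).trans ?_
  rw [hI]
  refine (intervalIntegral.norm_integral_le_integral_norm zero_le_one).trans (le_of_eq ?_)
  refine intervalIntegral.integral_congr fun t _ => ?_
  rw [norm_mul, lo_norm_exp, one_mul]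

/-- the estimate of one factor -/
private theorem lo_factor (P : Finset ℕ) (hP : ∀ p ∈ P, p.Prime) (a : ℕ → ℤ) {p : ℕ}
    (hp : p ∈ P) (t : ℝ) :
    ‖(1 - loM P a t p)⁻¹‖ ≤ (1 - (p : ℝ)⁻¹)⁻¹ *
      Real.exp (-(2 / 3 * ((p : ℝ)⁻¹ * Real.sin (π * (a p * t)) ^ 2))) := by
  have hp2 : (2 : ℝ) ≤ p := by exact_mod_cast (hP p hp).two_le
  set q : ℝ := (p : ℝ)⁻¹ with hq
  have hq0 : 0 < q := by positivity
  have hq1 : q ≤ 1 / 2 := by
    rw [hq, inv_le_comm₀ (by linarith) (by norm_num)]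
    linarith
  set θ : ℝ := π * (a p * t) with hθ
  have h1 : loM P a t p = ((q * Real.cos (2 * θ) : ℝ) : ℂ) +
      ((q * Real.sin (2 * θ) : ℝ) : ℂ) * Complex.I := by
    rw [loM_apply, loF_prime P hP a hp]
    have : 2 * (π : ℂ) * Complex.I * (a p : ℂ) * (t : ℂ) = ((2 * θ : ℝ) : ℂ) * Complex.I := by
      rw [hθ]
      push_cast
      ring
    rw [this, Complex.exp_mul_I, ← Complex.ofReal_cos, ← Complex.ofReal_sin, hq]
    push_cast
    ring
  have hns : Complex.normSq (1 - loM P a t p) = (1 - q) ^ 2 + 4 * q * Real.sin θ ^ 2 := by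
    rw [h1, Complex.normSq_apply]
    simp only [Complex.sub_re, Complex.one_re, Complex.add_re, Complex.ofReal_re, Complex.mul_re,
      Complex.I_re, mul_zero, Complex.ofReal_im, Complex.I_im, mul_one, sub_self, add_zero,
      Complex.sub_im, Complex.one_im, Complex.add_im, Complex.mul_im, zero_sub, zero_add]
    rw [Real.cos_two_mul, Real.sin_two_mul]
    have hc : Real.cos θ ^ 2 = 1 - Real.sin θ ^ 2 := Real.cos_sq' θ
    have h4 : (1 - q * (2 * Real.cos θ ^ 2 - 1)) * (1 - q * (2 * Real.cos θ ^ 2 - 1)) +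
        -(q * (2 * Real.sin θ * Real.cos θ)) * -(q * (2 * Real.sin θ * Real.cos θ)) =
        (1 - q * (2 * Real.cos θ ^ 2 - 1)) ^ 2 +
          q ^ 2 * (4 * Real.sin θ ^ 2 * Real.cos θ ^ 2) := by ring
    rw [h4, hc]
    ring
  set s : ℝ := Real.sin θ ^ 2 with hs
  have hs0 : 0 ≤ s := sq_nonneg _
  have hs1 : s ≤ 1 := Real.sin_sq_le_one θ
  have hpos : 0 < (1 - q) ^ 2 + 4 * q * s := by
    have : 0 < (1 - q) ^ 2 := by
      apply pow_pos
      linarith
    positivity
  have hnpos : 0 < ‖1 - loM P a t p‖ := by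
    rw [norm_pos_iff]
    intro h0
    rw [h0, map_zero] at hns
    linarith
  -- squared inequality
  have hkey : (1 - q) ^ 2 * Real.exp (2 * (2 / 3 * (q * s))) ≤ (1 - q) ^ 2 + 4 * q * s := by
    set y : ℝ := 2 * (2 / 3 * (q * s)) with hy
    have hqs : q * s ≤ 1 / 2 := by nlinarith
    have hqs0 : 0 ≤ q * s := by positivity
    have hy1 : y ≤ 2 / 3 := by
      rw [hy]
      linarith
    have hy0 : 0 ≤ y := by
      rw [hy]
      positivity
    have he : Real.exp y ≤ 1 + 3 * y := by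
      have h5 : 1 - y ≤ Real.exp (-y) := by
        have := Real.add_one_le_exp (-y)
        linarith
      have h6 : Real.exp y * Real.exp (-y) = 1 := by
        rw [← Real.exp_add]
        simp
      have h7 : Real.exp y * (1 - y) ≤ 1 := by
        calc Real.exp y * (1 - y) ≤ Real.exp y * Real.exp (-y) :=
              mul_le_mul_of_nonneg_left h5 (Real.exp_pos y).le
          _ = 1 := h6
      have h8 : 1 ≤ (1 + 3 * y) * (1 - y) := by nlinarith
      have h9 : 0 < 1 - y := by linarith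
      have h10 : Real.exp y * (1 - y) ≤ (1 + 3 * y) * (1 - y) := h7.trans h8
      exact le_of_mul_le_mul_right h10 h9
    have h11 : (1 - q) ^ 2 ≤ 1 := by nlinarith
    have h12 : 3 * y = 4 * (q * s) := by
      rw [hy]
      ring
    calc (1 - q) ^ 2 * Real.exp y ≤ (1 - q) ^ 2 * (1 + 3 * y) :=
          mul_le_mul_of_nonneg_left he (sq_nonneg _)
      _ = (1 - q) ^ 2 + (1 - q) ^ 2 * (4 * (q * s)) := by
          rw [← h12]
          ring
      _ ≤ (1 - q) ^ 2 + 1 * (4 * (q * s)) := by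
          gcongr
      _ = (1 - q) ^ 2 + 4 * q * s := by ring
  have hkey2 : ((1 - q) * Real.exp (2 / 3 * (q * s))) ^ 2 ≤ ‖1 - loM P a t p‖ ^ 2 := by
    rw [← Complex.normSq_eq_norm_sq, hns, mul_pow, ← Real.exp_nat_mul]
    push_cast
    exact hkey
  have hkey3 : (1 - q) * Real.exp (2 / 3 * (q * s)) ≤ ‖1 - loM P a t p‖ := by
    have h13 : 0 ≤ (1 - q) * Real.exp (2 / 3 * (q * s)) := by
      have : 0 < 1 - q := by linarith
      positivity
    exact (pow_le_pow_iff_left₀ h13 hnpos.le two_ne_zero).mp hkey2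
  rw [norm_inv, Real.exp_neg, ← mul_inv]
  refine inv_anti₀ ?_ hkey3
  have : 0 < 1 - q := by linarith
  positivity

/-- the Gaussian type integral -/
private theorem lo_gauss {E : ℝ} (hE : 0 < E) :
    ∫ t in (0:ℝ)..1, Real.exp (-(2 / 3 * (E * Real.sin (π * t) ^ 2))) ≤
      √(3 * π / 8) / √E := by
  set h : ℝ → ℝ := fun t => Real.exp (-(2 / 3 * (E * Real.sin (π * t) ^ 2))) with hh
  have hper : Function.Periodic h 1 := by
    intro t
    simp only [hh]
    rw [mul_add, mul_one, Real.sin_add_pi]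
    simp
  have h1 : ∫ t in (0:ℝ)..1, h t = ∫ t in (-(1/2):ℝ)..(-(1/2) + 1), h t := by
    have := hper.intervalIntegral_add_eq 0 (-(1/2))
    rwa [zero_add] at this
  change ∫ t in (0:ℝ)..1, h t ≤ _
  rw [h1]
  have hcont : Continuous h := by
    simp only [hh]
    fun_prop
  have hb : 0 < 8 / 3 * E := by positivity
  have h2 : ∫ t in (-(1/2):ℝ)..(-(1/2) + 1), h t ≤
      ∫ t in (-(1/2):ℝ)..(-(1/2) + 1), Real.exp (-(8 / 3 * E) * t ^ 2) := by
    refine intervalIntegral.integral_mono_on (by norm_num) (hcont.intervalIntegrable _ _)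
      (Continuous.intervalIntegrable (by fun_prop) _ _) fun t ht => ?_
    simp only [hh]
    apply Real.exp_le_exp.mpr
    have ht1 : |t| ≤ 1 / 2 := by
      rw [abs_le]
      constructor
      · linarith [ht.1]
      · linarith [ht.2]
    have h3 : 2 * |t| ≤ Real.sin (π * |t|) := by
      have := Real.mul_le_sin (x := π * |t|) (by positivity) (by
        have := Real.pi_pos
        nlinarith)
      have h4 : 2 / π * (π * |t|) = 2 * |t| := by
        field_simp
      rwa [h4] at this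
    have h5 : Real.sin (π * |t|) ^ 2 = Real.sin (π * t) ^ 2 := by
      rcases abs_choice t with h | h
      · rw [h]
      · rw [h, mul_neg, Real.sin_neg]
        ring
    have h6 : 4 * t ^ 2 ≤ Real.sin (π * t) ^ 2 := by
      rw [← h5, ← sq_abs t]
      nlinarith [abs_nonneg t]
    nlinarith
  refine h2.trans ?_
  have h7 : ∫ t in (-(1/2):ℝ)..(-(1/2) + 1), Real.exp (-(8 / 3 * E) * t ^ 2) ≤
      ∫ t : ℝ, Real.exp (-(8 / 3 * E) * t ^ 2) := by
    rw [intervalIntegral.integral_of_le (by norm_num)]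
    exact setIntegral_le_integral (integrable_exp_neg_mul_sq hb)
      (Filter.Eventually.of_forall fun t => (Real.exp_pos _).le)
  refine h7.trans (le_of_eq ?_)
  rw [integral_gaussian, ← Real.sqrt_div' _ hE.le]
  congr 1
  field_simp

/-- scaling by a nonzero integer -/
private theorem lo_scale (h : ℝ → ℝ) (hper : Function.Periodic h 1) (hc : Continuous h) (a : ℤ)
    (ha : a ≠ 0) :
    ∫ t in (0:ℝ)..1, h (a * t) = ∫ t in (0:ℝ)..1, h t := by
  have ha' : (a : ℝ) ≠ 0 := by exact_mod_cast ha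
  rw [intervalIntegral.integral_comp_mul_left (fun t => h t) ha']
  have h1 := hper.intervalIntegral_add_zsmul_eq a 0
  simp only [zero_add, mul_zero, mul_one, zsmul_eq_mul] at h1 ⊢
  rw [h1 fun _ _ => hc.intervalIntegrable _ _]
  simp only [smul_eq_mul]
  field_simp

theorem p_lo : S_lo := by
  refine ⟨√(3 * π / 8), by positivity, ?_⟩
  intro P hP a k Y hY hk hE
  set E : ℝ := ∑ p ∈ P with a p ≠ 0, (p : ℝ)⁻¹ with hEdef
  refine (lo_int P hP a k Y hY hk).trans ?_
  set h : ℝ → ℝ := fun t => Real.exp (-(2 / 3 * (E * Real.sin (π * t) ^ 2))) with hh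
  have hper : Function.Periodic h 1 := by
    intro t
    simp only [hh]
    rw [mul_add, mul_one, Real.sin_add_pi]
    simp
  have hhc : Continuous h := by
    simp only [hh]
    fun_prop
  have hZ : 0 ≤ ZP P := by
    unfold ZP
    refine Finset.prod_nonneg fun p hp => ?_
    rw [inv_nonneg, sub_nonneg]
    exact inv_le_one_of_one_le₀ (by exact_mod_cast (hP p hp).one_lt.le)
  have hMc : ∀ n : ℕ, Continuous (fun t : ℝ => loM P a t n) := by
    intro n
    simp only [loM_apply]
    fun_prop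
  have hpt : ∀ t : ℝ, ‖∏ p ∈ P, (1 - loM P a t p)⁻¹‖ ≤
      ZP P * ∑ p ∈ P with a p ≠ 0, ((p : ℝ)⁻¹ / E) * h (a p * t) := by
    intro t
    rw [norm_prod]
    have h1 : ∏ p ∈ P, ‖(1 - loM P a t p)⁻¹‖ ≤ ∏ p ∈ P, ((1 - (p : ℝ)⁻¹)⁻¹ *
        Real.exp (-(2 / 3 * ((p : ℝ)⁻¹ * Real.sin (π * (a p * t)) ^ 2)))) :=
      Finset.prod_le_prod (fun p _ => norm_nonneg _) fun p hp => lo_factor P hP a hp t
    refine h1.trans ?_
    rw [Finset.prod_mul_distrib, ← Real.exp_sum]
    refine mul_le_mul_of_nonneg_left ?_ hZ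
    have h2 : ∑ p ∈ P, -(2 / 3 * ((p : ℝ)⁻¹ * Real.sin (π * (a p * t)) ^ 2)) =
        ∑ p ∈ P with a p ≠ 0, ((p : ℝ)⁻¹ / E) •
          (-(2 / 3 * (E * Real.sin (π * (a p * t)) ^ 2))) := by
      rw [Finset.sum_filter]
      refine Finset.sum_congr rfl fun p _ => ?_
      split_ifs with h3
      · simp only [smul_eq_mul]
        field_simp
      · have : a p = 0 := by
          by_contra h4
          exact h3 h4
        rw [this]
        simp
    rw [h2]
    have h4 := convexOn_exp.map_sum_le (t := P.filter fun p => a p ≠ 0)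
      (w := fun p => (p : ℝ)⁻¹ / E)
      (p := fun p => -(2 / 3 * (E * Real.sin (π * (a p * t)) ^ 2)))
      (fun p _ => by positivity) (by
        rw [← Finset.sum_div]
        exact div_self hE.ne') (fun p _ => Set.mem_univ _)
    refine h4.trans (le_of_eq ?_)
    rfl
  have hI : ∫ t in (0:ℝ)..1, ‖∏ p ∈ P, (1 - loM P a t p)⁻¹‖ ≤
      ∫ t in (0:ℝ)..1, ZP P * ∑ p ∈ P with a p ≠ 0, ((p : ℝ)⁻¹ / E) * h (a p * t) := by
    refine intervalIntegral.integral_mono_on zero_le_one ?_ ?_ fun t _ => hpt t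
    · refine Continuous.intervalIntegrable (Continuous.norm ?_) _ _
      refine continuous_finsetProd _ fun p hp => ?_
      refine Continuous.inv₀ (continuous_const.sub (hMc p)) fun t h0 => ?_
      have h1 : ‖loM P a t p‖ = 1 := by
        have : loM P a t p = 1 := (sub_eq_zero.mp h0).symm
        rw [this, norm_one]
      rw [loM_norm] at h1
      have h2 : (1 : ℝ) < p := by exact_mod_cast (hP p hp).one_lt
      have h3 : (p : ℝ)⁻¹ < 1 := inv_lt_one_of_one_lt₀ h2
      linarith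
    · refine Continuous.intervalIntegrable ?_ _ _
      fun_prop
  refine hI.trans ?_
  rw [intervalIntegral.integral_const_mul, intervalIntegral.integral_finsetSum]
  · have h5 : ∀ p ∈ P.filter (fun p => a p ≠ 0),
        ∫ t in (0:ℝ)..1, ((p : ℝ)⁻¹ / E) * h (a p * t) = ((p : ℝ)⁻¹ / E) *
          ∫ t in (0:ℝ)..1, h t := by
      intro p hp
      rw [intervalIntegral.integral_const_mul, lo_scale h hper hhc (a p) (Finset.mem_filter.mp hp).2]
    rw [Finset.sum_congr rfl h5, ← Finset.sum_mul, ← Finset.sum_div, ← hEdef, div_self hE.ne',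
      one_mul, mul_comm]
    exact mul_le_mul_of_nonneg_right (lo_gauss hE) hZ
  · intro p _
    refine Continuous.intervalIntegrable ?_ _ _
    fun_prop

end Pool.Agent.Lib.MP_c82530_nt.AA
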