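import Mathlib
import Pool.Agent.Lib.MP_c82530_nt.AA.Stm

set_option autoImplicit false

namespace Pool.Agent.Lib.MP_c82530_nt.AA

open scoped BigOperators

private theorem sp_mem (P : Finset ℕ) (hP : ∀ p ∈ P, p.Prime) (f : ℕ → ℕ) :
    ∏ p ∈ P, p ^ f p ∈ Nat.factoredNumbers P := by
  have h0 : ∏ p ∈ P, p ^ f p ≠ 0 :=
    Finset.prod_ne_zero_iff.mpr fun p hp => pow_ne_zero _ (hP p hp).ne_zero
  rw [Nat.mem_factoredNumbers]
  refine ⟨h0, fun q hq => ?_⟩
  have hqp : q.Prime := Nat.prime_of_mem_primeFactorsList hq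
  have hqd : q ∣ ∏ p ∈ P, p ^ f p := Nat.dvd_of_mem_primeFactorsList hq
  obtain ⟨p, hp, hd⟩ := (Prime.dvd_finsetProd_iff hqp.prime _).mp hqd
  have h1 : q ∣ p := hqp.dvd_of_dvd_pow hd
  have h2 : q = p := (Nat.prime_dvd_prime_iff_eq hqp (hP p hp)).mp h1
  rw [h2]
  exact hp

theorem p_sp : S_sp := by
  intro P₁ P₂ h1 h2 hd b hb
  rw [Nat.mem_factoredNumbers] at hb
  obtain ⟨hb0, hb1⟩ := hb
  refine ⟨∏ p ∈ P₁, p ^ b.factorization p, sp_mem P₁ h1 _, ∏ p ∈ P₂, p ^ b.factorization p,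
    sp_mem P₂ h2 _, ?_⟩
  rw [← Finset.prod_union hd]
  have h3 : b.factorization.prod (fun p k => p ^ k) =
      ∏ p ∈ P₁ ∪ P₂, p ^ b.factorization p := by
    refine Finsupp.prod_of_support_subset _ ?_ _ (fun p _ => pow_zero p)
    intro p hp
    rw [Nat.support_factorization] at hp
    exact hb1 p (Nat.mem_primeFactors_iff_mem_primeFactorsList.mp hp)
  rw [← h3]
  exact (Nat.prod_factorization_pow_eq_self hb0).symm

theorem ZP_le_exp : ∀ P : Finset ℕ, (∀ p ∈ P, p.Prime) →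
    ZP P ≤ Real.exp (2 * ∑ p ∈ P, (p : ℝ)⁻¹) := by
  intro P hP
  unfold ZP
  rw [Finset.mul_sum, Real.exp_sum]
  refine Finset.prod_le_prod (fun p hp => ?_) fun p hp => ?_
  · rw [inv_nonneg, sub_nonneg]
    exact inv_le_one_of_one_le₀ (by exact_mod_cast (hP p hp).one_lt.le)
  · have hp2 : (2 : ℝ) ≤ p := by exact_mod_cast (hP p hp).two_le
    set q : ℝ := (p : ℝ)⁻¹ with hq
    have hq0 : 0 < q := by positivity
    have hq1 : q ≤ 1 / 2 := by
      rw [hq, inv_le_comm₀ (by linarith) (by norm_num)]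
      linarith
    have h3 : 0 < 1 - q := by linarith
    rw [inv_le_iff_one_le_mul₀ h3]
    have h4 : 2 * q + 1 ≤ Real.exp (2 * q) := Real.add_one_le_exp _
    calc (1 : ℝ) ≤ (2 * q + 1) * (1 - q) := by nlinarith
      _ ≤ Real.exp (2 * q) * (1 - q) := mul_le_mul_of_nonneg_right h4 h3.le

end Pool.Agent.Lib.MP_c82530_nt.AA
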