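import Pool.Agent.Lib.MP_c82530_nt.AA.Stm

set_option autoImplicit false

namespace Pool.Agent.Lib.MP_c82530_nt.AA

open scoped BigOperators

/-- piece ZS -/
theorem p_zs : S_zs := by
  intro P hP Y hY
  let f : ℕ →* ℝ :=
    { toFun := fun n => (n : ℝ)⁻¹
      map_one' := by simp
      map_mul' := fun a b => by simp [mul_comm] }
  have hf : ∀ n : ℕ, f n = (n : ℝ)⁻¹ := fun n => rfl
  have h1 : ∀ {p : ℕ}, p.Prime → ‖f p‖ < 1 := by
    intro p hp
    rw [hf, norm_inv, Real.norm_natCast]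
    exact inv_lt_one_of_one_lt₀ (by exact_mod_cast hp.one_lt)
  obtain ⟨h2, h3⟩ := EulerProduct.summable_and_hasSum_factoredNumbers_prod_filter_prime_geometric
    (f := f) h1 P
  have h4 : ∏ p ∈ P with p.Prime, (1 - f p)⁻¹ = ZP P := by
    unfold ZP
    rw [Finset.filter_true_of_mem hP]
    exact Finset.prod_congr rfl fun p _ => by rw [hf]
  rw [h4] at h3
  have h5 : ∑ b ∈ Y, (b : ℝ)⁻¹ =
      ∑ m ∈ Y.subtype (fun b => b ∈ Nat.factoredNumbers P), f (m : ℕ) := by
    rw [Finset.sum_subtype_of_mem (f := fun b : ℕ => f b) (p := fun b => b ∈ Nat.factoredNumbers P) hY]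
    exact Finset.sum_congr rfl fun b _ => by rw [hf]
  rw [h5]
  refine sum_le_hasSum _ (fun m _ => ?_) h3
  rw [hf]
  positivity

end Pool.Agent.Lib.MP_c82530_nt.AA
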